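import Mathlib
import Pool.Agent.MP_494aff_an.lf.Line

-- ======== part 0: formerly Pool.Agent.MP_494aff_an.hi.Cover
section MrgPart0

/-! Intervals of small total length that cover an interval twice. -/

namespace Pool.Agent.MP_494aff_an.Hi

open MeasureTheory Set
open Classical

namespace CoverP

/-- No room for one more interval. -/
lemma key {ι : Type} [Fintype ι] {l h : ι → ℝ} {z Z a b : ℝ} (Q : Finset ℝ)
    (hl : ∀ k, l k < h k) (hz : z < Z) (hs : ∑ k, (h k - l k) ≤ 2 * (Z - z)) (hab : a < b)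
    (hE : ∀ x, x ∉ Q → ∃ s : Finset ι, (∀ k ∈ s, x ∈ Icc (l k) (h k)) ∧
      (if x ∈ Ioo z Z then 2 else 0) + (if x ∈ Ioo a b then 1 else 0) ≤ s.card) : False := by
  have h1 : ∀ᵐ x ∂(volume : Measure ℝ), (Ioo z Z).indicator (fun _ => (2 : ENNReal)) x +
      (Ioo a b).indicator (fun _ => (1 : ENNReal)) x ≤
        ∑ k, (Icc (l k) (h k)).indicator (fun _ => (1 : ENNReal)) x := by
    filter_upwards [Q.countable_toSet.ae_notMem volume] with x hx
    obtain ⟨s, e1, e2⟩ := hE x hx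
    calc _ = (((if x ∈ Ioo z Z then 2 else 0) + (if x ∈ Ioo a b then 1 else 0) : ℕ) : ENNReal) := by
          simp only [indicator]
          split_ifs <;> norm_num
      _ ≤ (s.card : ENNReal) := by exact_mod_cast e2
      _ = ∑ k ∈ s, (Icc (l k) (h k)).indicator (fun _ => (1 : ENNReal)) x := by
          rw [Finset.sum_congr rfl fun k hk => indicator_of_mem (e1 k hk) _]
          simp
      _ ≤ _ := Finset.sum_le_sum_of_subset (Finset.subset_univ s)
  have h2 := lintegral_mono_ae h1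
  rw [lintegral_add_left (measurable_const.indicator measurableSet_Ioo),
    lintegral_finsetSum _ fun k _ => measurable_const.indicator measurableSet_Icc] at h2
  simp only [lintegral_indicator_const measurableSet_Ioo,
    lintegral_indicator_const measurableSet_Icc, Real.volume_Ioo, Real.volume_Icc, one_mul] at h2
  rw [← ENNReal.ofReal_sum_of_nonneg fun k _ => (sub_pos.2 (hl k)).le, ← ENNReal.ofReal_ofNat,
    ← ENNReal.ofReal_mul (by norm_num),
    ← ENNReal.ofReal_add (by have := sub_pos.2 hz; positivity) (sub_pos.2 hab).le,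
    ENNReal.ofReal_le_ofReal_iff (Finset.sum_nonneg fun k _ => (sub_pos.2 (hl k)).le)] at h2
  linarith

end CoverP

theorem cover : CoverStmt := by
  intro ι _ l h p z Z Q hl hz hs hc
  have two : ∀ x, x ∉ Q → ∃ s : Finset ι, (∀ k ∈ s, p k ∧ x ∈ Icc (l k) (h k)) ∧
      (if x ∈ Ioo z Z then 2 else 0) ≤ s.card := fun x hx => by
    by_cases hm : x ∈ Ioo z Z
    · obtain ⟨k, k', e, a1, a2, a3, a4⟩ := hc x hm.1 hm.2 hx
      refine ⟨{k, k'}, fun j hj => ?_, by rw [if_pos hm, Finset.card_pair e]⟩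
      rcases Finset.mem_insert.1 hj with rfl | hj
      · exact ⟨a1, a3⟩
      · rw [Finset.mem_singleton.1 hj]; exact ⟨a2, a4⟩
    · exact ⟨∅, by simp, by simp [hm]⟩
  have out : ∀ k a b, a < b → l k ≤ a → b ≤ h k → (b ≤ z ∨ Z ≤ a) → False :=
    fun k a b hab h1 h2 h3 => CoverP.key Q hl hz hs hab fun x hx => by
      by_cases hm : x ∈ Ioo a b
      · have hn : x ∉ Ioo z Z := fun hn => by
          rcases h3 with h3 | h3 <;> linarith [hm.1, hm.2, hn.1, hn.2]
        refine ⟨{k}, fun j hj => ?_, by simp [hm, hn]⟩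
        rw [Finset.mem_singleton.1 hj]
        exact ⟨h1.trans hm.1.le, hm.2.le.trans h2⟩
      · obtain ⟨s, e1, e2⟩ := two x hx
        exact ⟨s, fun j hj => (e1 j hj).2, by rw [if_neg hm]; exact e2⟩
  refine ⟨fun k => ⟨?_, ?_, ?_⟩, fun k₁ k₂ k₃ x n1 n2 n3 a1 b1 a2 b2 a3 b3 => ?_⟩
  · by_contra hp
    refine CoverP.key Q hl hz hs (hl k) fun x hx => ?_
    obtain ⟨s, e1, e2⟩ := two x hx
    by_cases hm : x ∈ Ioo (l k) (h k)
    · refine ⟨insert k s, fun j hj => ?_, ?_⟩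
      · rcases Finset.mem_insert.1 hj with rfl | hj
        · exact Ioo_subset_Icc_self hm
        · exact (e1 j hj).2
      · rw [if_pos hm, Finset.card_insert_of_notMem fun hk => hp (e1 k hk).1]
        omega
    · exact ⟨s, fun j hj => (e1 j hj).2, by rw [if_neg hm]; exact e2⟩
  · by_contra hn
    exact out k (l k) (min (h k) z) (lt_min (hl k) (not_le.1 hn)) le_rfl (min_le_left _ _)
      (Or.inl (min_le_right _ _))
  · by_contra hn
    exact out k (max (l k) Z) (h k) (max_lt (hl k) (not_le.1 hn)) (le_max_left _ _) le_rfl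
      (Or.inr (le_max_right _ _))
  · refine CoverP.key Q hl hz hs (a := max (l k₁) (max (l k₂) (l k₃)))
      (b := min (h k₁) (min (h k₂) (h k₃)))
      ((max_lt a1 (max_lt a2 a3)).trans (lt_min b1 (lt_min b2 b3))) fun y hy => ?_
    by_cases hm : y ∈ Ioo (max (l k₁) (max (l k₂) (l k₃))) (min (h k₁) (min (h k₂) (h k₃)))
    · refine ⟨{k₁, k₂, k₃}, fun j hj => ?_, ?_⟩
      · simp only [mem_Ioo, max_lt_iff, lt_min_iff] at hm
        simp only [Finset.mem_insert, Finset.mem_singleton] at hj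
        rcases hj with rfl | rfl | rfl
        · exact ⟨hm.1.1.le, hm.2.1.le⟩
        · exact ⟨hm.1.2.1.le, hm.2.2.1.le⟩
        · exact ⟨hm.1.2.2.le, hm.2.2.2.le⟩
      · rw [if_pos hm, Finset.card_eq_three.2 ⟨k₁, k₂, k₃, n1, n2, n3, rfl⟩]
        split_ifs <;> omega
    · obtain ⟨s, e1, e2⟩ := two y hy
      exact ⟨s, fun j hj => (e1 j hj).2, by rw [if_neg hm]; exact e2⟩

end Pool.Agent.MP_494aff_an.Hi

end MrgPart0

-- ======== part 1: formerly Pool.Agent.MP_494aff_an.hi.Cut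
section MrgPart1

/-! Row CUT: cutting a component at a point. -/

namespace Pool.Agent.MP_494aff_an.Hi

open Pool.Agent.MP_494aff_an.Se

open Classical

namespace CutP

open Sys

variable {G T J B : Type} [Group G] {S : Sys G T J B} {j : J} {x : ℝ} {R : B × Bool → Prop}
  {τ : Ty}

theorem cp_pos {d : B × Bool} (h : S.cp d = j ∧ R d) :
    (S.cut j x R τ).cp (some d.1, d.2) = none := if_pos h

theorem cp_neg {d : B × Bool} (h : ¬(S.cp d = j ∧ R d)) :
    (S.cut j x R τ).cp (some d.1, d.2) = some (S.cp d) := if_neg h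

theorem gd (b : B) (i : Bool) : ((S.cut j x R τ).cp (some b, i)).getD j = S.cp (b, i) := by
  by_cases h : S.cp (b, i) = j ∧ R (b, i)
  · rw [cp_pos (d := (b, i)) h]; exact h.1.symm
  · rw [cp_neg (d := (b, i)) h]; rfl

theorem gd' (i : Bool) : ((S.cut j x R τ).cp (none, i)).getD j = j := by
  cases i <;> rfl

theorem ty_eq (o : Option J) : (S.cut j x R (S.ty j)).ty o = S.ty (o.getD j) := by
  cases o <;> rfl

theorem not_int {i : Bool} {y : ℝ} (h1 : (S.cut j x R τ).lo (none, i) < y)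
    (h2 : y < (S.cut j x R τ).hi (none, i)) : False := by
  have : (S.cut j x R τ).lo (none, i) = (S.cut j x R τ).hi (none, i) :=
    (min_self _).trans (max_self _).symm
  linarith

theorem ext (hs : ∀ d, S.e d = 1 ∨ S.e d = -1)
    (hm : ∀ b, ∀ t ∈ S.st b, S.al b ≤ t ∧ t ≤ S.be b)
    (hR : ∀ d d', S.cp d = j → S.cp d' = j → R d → ¬ R d' → ∀ y ∈ S.Bs d, y ∈ S.Bs d' → y = x)
    (h : S.Ext) : (S.cut j x R τ).Ext := by
  rintro u ⟨f, hf⟩
  obtain ⟨K, hK⟩ : ∃ K, K = u (none, false) * (u (none, true))⁻¹ := ⟨_, rfl⟩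
  have e0 : ∀ g, K * f none x g = f (some j) x g := fun g => by
    have := hf (none, false) 0 (Finset.mem_singleton_self _) g
    change (u (none, false))⁻¹ * f (some j) (x + 1 * 0) (1 * g) =
      (u (none, true))⁻¹ * f none (x + 1 * 0) (1 * g) at this
    rw [mul_zero, add_zero, one_mul, inv_mul_eq_iff_eq_mul] at this
    rw [this, hK, mul_assoc]
  obtain ⟨v, hv⟩ : ∃ v : B × Bool → F2, ∀ d, v d =
      if S.cp d = j ∧ R d then K * u (some d.1, d.2) else u (some d.1, d.2) := ⟨_, fun _ => rfl⟩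
  obtain ⟨F, hF⟩ : ∃ F : J → ℝ → G → F2, ∀ j₀ y g, F j₀ y g =
      if j₀ = j ∧ ∃ ν, S.cp ν = j ∧ R ν ∧ y ∈ S.Bs ν then K * f none y g else f (some j₀) y g :=
    ⟨_, fun _ _ _ => rfl⟩
  have key : ∀ d, ∀ y ∈ S.Bs d, ∀ g, (v d)⁻¹ * F (S.cp d) y g =
      (u (some d.1, d.2))⁻¹ * f ((S.cut j x R τ).cp (some d.1, d.2)) y g := fun d y hy g => by
    rw [hv, hF]
    by_cases h1 : S.cp d = j ∧ R d
    · rw [if_pos h1, if_pos ⟨h1.1, d, h1.1, h1.2, hy⟩, cp_pos h1]
      group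
    · rw [if_neg h1, cp_neg h1]
      split_ifs with h2
      · obtain ⟨h2, ν, h3, h4, h5⟩ := h2
        rw [hR ν d h3 h2 h4 (fun k => h1 ⟨h2, k⟩) y h5 hy, e0, h2]
      · rfl
  obtain ⟨Ψ, y, w, hu⟩ := h v ⟨F, fun d t ht g => by
    rw [key d _ (pos_mem (hs d) (hm _ t ht).1 (hm _ t ht).2),
      key (op d) _ (pos_mem (hs (op d)) (hm _ t ht).1 (hm _ t ht).2)]
    exact hf (some d.1, d.2) t ht g⟩
  refine ⟨Ψ, fun o => o.elim (K⁻¹ * y j) y, fun o => o.elim ((u (none, false))⁻¹ * y j) w, ?_⟩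
  rintro ⟨_ | b, i⟩
  · cases i
    · change _ = y j * Ψ 1 * ((u (none, false))⁻¹ * y j)⁻¹
      rw [map_one]; group
    · change _ = K⁻¹ * y j * Ψ 1 * ((u (none, false))⁻¹ * y j)⁻¹
      rw [map_one, hK]; group
  · have := hu (b, i)
    rw [hv] at this
    by_cases h1 : S.cp (b, i) = j ∧ R (b, i)
    · rw [if_pos h1, h1.1, ← eq_inv_mul_iff_mul_eq, ← mul_assoc, ← mul_assoc] at this
      rw [cp_pos (d := (b, i)) h1]
      exact this
    · rw [if_neg h1] at this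
      rw [cp_neg (d := (b, i)) h1]
      exact this

theorem conn (h : S.Conn) : (S.cut j x R τ).Conn := by
  intro X hX
  have e : ∀ o, X o = X (some (o.getD j)) := by
    rintro (_ | o)
    · ext g
      have h1 := hX (none, true) g
      have h2 := hX (none, false) g
      change 1 * g ∈ X none → 1 * g ∈ X (some j) at h1
      change 1 * g ∈ X (some j) → 1 * g ∈ X none at h2
      rw [one_mul] at h1 h2
      exact ⟨h1, h2⟩
    · rfl
  intro o g hg o' g'
  rw [e] at hg ⊢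
  refine h (fun j₀ => X (some j₀)) (fun d g k => ?_) _ g hg _ g'
  have := hX (some d.1, d.2) g (by rw [e, gd]; exact k)
  rw [e, op_mk, gd] at this
  exact this

variable [MulAction G T]

theorem core
    (hR : ∀ d d', S.cp d = j → S.cp d' = j → R d → ¬ R d' → ∀ y ∈ S.Bs d, y ∈ S.Bs d' → y = x)
    (h : S.Core) : (S.cut j x R τ).Core := by
  refine ⟨⟨none⟩, ?_, ?_, ?_, ?_, ext h.sg h.stm hR h.ext, conn h.conn⟩
  · rintro (_ | b)
    · exact le_rfl
    · exact h.le b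
  · rintro ⟨_ | b, i⟩
    · exact Or.inl rfl
    · exact h.sg (b, i)
  · rintro (_ | b) t ht
    · obtain rfl := Finset.mem_singleton.1 ht
      exact ⟨le_rfl, le_rfl⟩
    · exact h.stm b t ht
  · rintro ⟨_ | b, i⟩ t k1 k2
    · cases i <;> rfl
    · have := h.geo (b, i) t k1 k2
      rw [op_mk, ← gd (j := j) (x := x) (R := R) (τ := τ),
        ← gd (j := j) (x := x) (R := R) (τ := τ) b (!i)] at this
      exact this

end CutP

open CutP Sys in
theorem cut : CutStmt := by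
  intro G T J B _ _ S j x R hR
  refine ⟨fun _ h => core hR h, fun Ln h hj => ⟨core hR h.core, ?_, ?_, ?_,
    Sub.dyn (π := fun o => o.getD j) (Sub.of_piece ?_) h.dyn⟩⟩
  · rintro ⟨_ | b, i⟩ p
    · exact absurd p (lt_irrefl (0 : ℝ))
    · rw [ty_eq, ty_eq, op_mk, gd, gd]
      exact h.ty (b, i) p
  · obtain ⟨A, a1, a2⟩ := h.ab
    refine ⟨fun o => A (o.getD j), fun o k => a1 _ (by rwa [ty_eq] at k), ?_⟩
    rintro ⟨_ | b, i⟩ k y hy
    · rw [ty_eq, gd'] at k
      exact absurd k hj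
    · rw [ty_eq, gd] at k
      have := a2 (b, i) k y hy
      rw [← gd (j := j) (x := x) (R := R) (τ := S.ty j)] at this
      exact this
  · rintro ⟨_ | b₁, i₁⟩ d₂ d₃ y n1 n2 n3 c1 c2 q l1 l2 l3 l4 l5 l6
    · exact not_int l1 l2
    obtain ⟨_ | b₂, i₂⟩ := d₂
    · exact not_int l3 l4
    obtain ⟨_ | b₃, i₃⟩ := d₃
    · exact not_int l5 l6
    have k : ∀ {b b' : B} {i i' : Bool}, (some b, i) ≠ (some b', i') → (b, i) ≠ (b', i') :=
      fun n e => n (by rw [(Prod.mk.inj e).1, (Prod.mk.inj e).2])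
    have c1' := congrArg (fun o => o.getD j) c1
    have c2' := congrArg (fun o => o.getD j) c2
    simp only [gd] at c1' c2'
    rw [ty_eq, gd] at q
    exact h.qd _ _ _ y (k n1) (k n2) (k n3) c1' c2' q l1 l2 l3 l4 l5 l6
  · rintro (_ | b) i p
    · exact absurd p.1 (lt_irrefl (0 : ℝ))
    · have q := p.2
      rw [ty_eq, gd] at q
      exact ⟨b, ⟨p.1, q⟩, subset_rfl, fun i' => ⟨(gd b i').symm, rfl, rfl, rfl⟩⟩

end Pool.Agent.MP_494aff_an.Hi

end MrgPart1

-- ======== part 2: formerly Pool.Agent.MP_494aff_an.hi.Ph1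
section MrgPart2

/-! Free arcs are collapsed until every active point has weight at least two. -/

namespace Pool.Agent.MP_494aff_an.Hi

open Pool.Agent.MP_494aff_an.Se Pool.Agent.MP_494aff_an.Fr

open Classical Filter Topology

namespace Ph1P

variable {G T J B : Type} [Group G] [MulAction G T] [Fintype B]

/-- A system without weight two has a free arc. -/
theorem exists_free {S : Sys G T J B} (h : S.Core) (hw : ¬ S.W2) :
    ∃ d t₁ t₂, S.Free d t₁ t₂ := by
  unfold Sys.W2 at hw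
  push Not at hw
  obtain ⟨d, hd, x, hx, hQ, hno⟩ := hw (Finset.univ.image S.lo ∪ Finset.univ.image S.hi ∪
    (Finset.univ.biUnion fun ν : B × Bool => (S.st ν.1).image (S.pos ν)))
  simp only [Finset.mem_union, Finset.mem_image, Finset.mem_univ, true_and, Finset.mem_biUnion,
    not_or, not_exists, not_and] at hQ
  obtain ⟨⟨q1, q2⟩, q3⟩ := hQ
  obtain ⟨t, -, -, rfl⟩ := Sys.exists_pos (h.sg d) (h.le _) hx
  have hint := (Sys.pos_int_iff (h.sg d) (h.le _)).1
    ⟨lt_of_le_of_ne hx.1 (q1 d), lt_of_le_of_ne hx.2 (Ne.symm (q2 d))⟩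
  have hother : ∀ ν, ν ≠ d → S.cp ν = S.cp d → S.pos d t ∉ S.Bs ν := by
    intro ν hν hc hm
    by_cases hp : S.Pos ν.1
    · exact hno ν hν ⟨hp, by rw [hc]; exact hd.2⟩ hc hm
    · rw [Sys.pos_iff (h.sg ν) (h.le _), not_lt] at hp
      exact q1 ν (le_antisymm hm.1 (hm.2.trans hp))
  have hc : Continuous (S.pos d) := by
    unfold Sys.pos
    fun_prop
  have e1 : ∀ᶠ s in 𝓝 t, s ∈ Set.Ioo (S.al d.1) (S.be d.1) := Ioo_mem_nhds hint.1 hint.2
  have e2 : ∀ᶠ s in 𝓝 t, s ∉ S.st d.1 :=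
    (S.st d.1).finite_toSet.isClosed.isOpen_compl.mem_nhds fun ht => q3 d t ht rfl
  have e3 : ∀ᶠ s in 𝓝 t, ∀ ν, ν ≠ d → S.cp ν = S.cp d → S.pos d s ∉ S.Bs ν := by
    refine eventually_all.2 fun ν => ?_
    by_cases hν : ν ≠ d ∧ S.cp ν = S.cp d
    · have : ∀ᶠ s in 𝓝 t, S.pos d s ∈ (S.Bs ν)ᶜ :=
        hc.continuousAt.eventually (isClosed_Icc.isOpen_compl.mem_nhds (hother ν hν.1 hν.2))
      exact this.mono fun s hs _ _ => hs
    · exact Eventually.of_forall fun s k1 k2 => absurd ⟨k1, k2⟩ hν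
  obtain ⟨l, u, hlu, hsub⟩ := mem_nhds_iff_exists_Ioo_subset.1 (e1.and (e2.and e3))
  have hlt : l < u := hlu.1.trans hlu.2
  have hb := (Set.Ioo_subset_Ioo_iff hlt).1 fun s hs => (hsub hs).1
  refine ⟨d, l, u, hb.1, hlt, hb.2, fun s hs => ?_, fun ν k1 k2 s k3 k4 =>
    (hsub ⟨k3, k4⟩).2.2 ν k1 k2⟩
  by_contra hn
  push Not at hn
  exact (hsub hn).2.1 hs

/-- The number of gaps between consecutive steps. -/
noncomputable def mu {J B : Type} [Fintype B] (S : Sys G T J B) : ℕ := ∑ b, ((S.st b).card - 1)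

omit [Group G] [MulAction G T] in
theorem coll_mu {S : Sys G T J B} {d : B × Bool} {t₁ t₂ : ℝ} (hf : S.Free d t₁ t₂)
    (ha : ∀ b, S.al b ∈ S.st b) (hb : ∀ b, S.be b ∈ S.st b) :
    (∀ o, ((S.collapse d t₁ t₂).st o).Nonempty) ∧ mu (S.collapse d t₁ t₂) < mu S := by
  have n1 : ((S.st d.1).filter fun s => s ≤ t₁).Nonempty :=
    ⟨_, Finset.mem_filter.2 ⟨ha _, hf.l⟩⟩
  have n2 : ((S.st d.1).filter fun s => t₂ ≤ s).Nonempty :=
    ⟨_, Finset.mem_filter.2 ⟨hb _, hf.r⟩⟩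
  have s0 : (S.collapse d t₁ t₂).st none = (S.st d.1).filter fun s => t₂ ≤ s := rfl
  have s1 : (S.collapse d t₁ t₂).st (some d.1) = (S.st d.1).filter fun s => s ≤ t₁ := by
    simp [Sys.collapse]
  have s2 : ∀ b, b ≠ d.1 → (S.collapse d t₁ t₂).st (some b) = S.st b := by
    intro b hb
    simp [Sys.collapse, hb]
  refine ⟨fun o => ?_, ?_⟩
  · rcases o with _ | b
    · exact s0 ▸ n2
    · by_cases hb : b = d.1
      · rw [hb, s1]
        exact n1
      · rw [s2 b hb]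
        exact ⟨_, ha b⟩
  · have hcard : ((S.st d.1).filter fun s => s ≤ t₁).card +
        ((S.st d.1).filter fun s => t₂ ≤ s).card ≤ (S.st d.1).card := by
      rw [← Finset.card_union_of_disjoint]
      · exact Finset.card_le_card (Finset.union_subset (Finset.filter_subset _ _)
          (Finset.filter_subset _ _))
      · refine Finset.disjoint_filter.2 fun s _ k1 k2 => ?_
        linarith [hf.lt]
    have c1 := n1.card_pos
    have c2 := n2.card_pos
    unfold mu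
    rw [Fintype.sum_option, ← Finset.add_sum_erase _ _ (Finset.mem_univ d.1),
      ← Finset.add_sum_erase Finset.univ (fun b => (S.st b).card - 1) (Finset.mem_univ d.1), s0, s1,
      Finset.sum_congr rfl fun b hb => by rw [s2 b (Finset.ne_of_mem_erase hb)]]
    omega

theorem main (h1 : CollStmt) (h2 : CollCxStmt) (Ln : Set (Set T)) (n : ℕ) :
    ∀ (J B : Type) [Fintype J] [Fintype B] (S : Sys G T J B), S.Valid Ln →
      (∀ b, (S.st b).Nonempty) → mu S < n →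
      ∃ (J' B' : Type) (_ : Fintype J') (_ : Fintype B') (S' : Sys G T J' B'),
        S'.Valid Ln ∧ S'.W2 ∧ S'.cx ≤ S.cx := by
  induction n with
  | zero => intro J B _ _ S _ _ h; omega
  | succ n ih =>
    intro J B _ _ S hv hne hn
    have k1 : ∀ b, S.al b ≤ (S.st b).min' (hne b) := fun b =>
      (hv.core.stm b _ (Finset.min'_mem _ _)).1
    have k2 : ∀ b, (S.st b).min' (hne b) ≤ (S.st b).max' (hne b) := fun b =>
      Finset.min'_le _ _ (Finset.max'_mem _ _)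
    have k3 : ∀ b, (S.st b).max' (hne b) ≤ S.be b := fun b =>
      (hv.core.stm b _ (Finset.max'_mem _ _)).2
    have hv1 := hv.narrow (st := S.st) k1 k2 k3
      (fun b t ht => ⟨Finset.min'_le _ _ ht, Finset.le_max' _ _ ht⟩)
      fun u hu => Sys.Sol.of_subset (fun _ => Finset.Subset.refl _) hu
    have hc1 := Sys.narrow_cx (st := S.st) hv.core.sg k1 k2 k3
    by_cases hw : (S.narrow (fun b => (S.st b).min' (hne b)) (fun b => (S.st b).max' (hne b))
        S.st).W2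
    · exact ⟨J, B, inferInstance, inferInstance, _, hv1, hw, hc1⟩
    · obtain ⟨d, t₁, t₂, hf⟩ := exists_free hv1.core hw
      obtain ⟨m1, m2⟩ := coll_mu hf (fun b => Finset.min'_mem _ (hne b))
        fun b => Finset.max'_mem _ (hne b)
      obtain ⟨J', B', i1, i2, S', a1, a2, a3⟩ := ih _ _ _ (h1 G T J B Ln _ d t₁ t₂ hv1 hf) m1
        (lt_of_lt_of_le m2 (Nat.lt_succ_iff.1 hn))
      exact ⟨J', B', i1, i2, S', a1, a2,
        a3.trans ((h2 G T J B _ d t₁ t₂ hv1.core hf).trans hc1)⟩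

end Ph1P

theorem ph1 (h1 : CollStmt) (h2 : CollCxStmt) : Ph1Stmt := by
  intro G T J B _ _ _ _ Ln S hv
  have hv1 := hv.narrow (al := S.al) (be := S.be) (st := fun b => insert (S.al b) (S.st b))
    (fun _ => le_rfl) hv.core.le (fun _ => le_rfl)
    (fun b t ht => by
      rcases Finset.mem_insert.1 ht with rfl | ht
      · exact ⟨le_rfl, hv.core.le b⟩
      · exact hv.core.stm b t ht)
    fun u hu => Sys.Sol.of_subset (fun _ => Finset.subset_insert _ _) hu
  obtain ⟨J', B', i1, i2, S', a1, a2, a3⟩ := Ph1P.main h1 h2 Ln _ J B _ hv1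
    (fun b => Finset.insert_nonempty _ _) (Nat.lt_succ_self _)
  exact ⟨J', B', i1, i2, S', a1, a2,
    a3.trans (Sys.narrow_cx hv.core.sg (fun _ => le_rfl) hv.core.le fun _ => le_rfl)⟩

end Pool.Agent.MP_494aff_an.Hi

end MrgPart2

-- ======== part 3: formerly Pool.Agent.MP_494aff_an.hi.Qp1
section MrgPart3

/-! Normalising the steps. -/

namespace Pool.Agent.MP_494aff_an.Hi

open Pool.Agent.MP_494aff_an.Se Pool.Agent.MP_494aff_an.Fr

open Classical

namespace Qp1P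

variable {G T J B : Type}

/-- The steps in the interior of the domain. -/
noncomputable def inn (S : Sys G T J B) (b : B) : Finset ℝ :=
  (S.st b).filter fun t => S.al b < t ∧ t < S.be b

/-- The number of interior steps. -/
noncomputable def mu [Fintype B] (S : Sys G T J B) : ℕ := ∑ b, (inn S b).card

theorem mem_inn {S : Sys G T J B} {b : B} {t : ℝ} :
    t ∈ inn S b ↔ t ∈ S.st b ∧ S.al b < t ∧ t < S.be b := Finset.mem_filter

theorem inn_none {S : Sys G T J B} {b : B} {t s : ℝ} (ht : t ∈ inn S b)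
    (hs : s ∈ inn (S.subdiv b t) none) : s ∈ inn S b ∧ t < s := by
  obtain ⟨-, h1, -⟩ := mem_inn.1 ht
  obtain ⟨k1, k2, k3⟩ := mem_inn.1 hs
  have k2' : t < s := k2
  have k3' : s < S.be b := k3
  have k1' : s ∈ insert t ((S.st b).filter fun s => t ≤ s) := k1
  rcases Finset.mem_insert.1 k1' with e | k
  · exact absurd e k2'.ne'
  · exact ⟨mem_inn.2 ⟨(Finset.mem_filter.1 k).1, h1.trans k2', k3'⟩, k2'⟩

theorem inn_self {S : Sys G T J B} {b : B} {t s : ℝ} (ht : t ∈ inn S b)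
    (hs : s ∈ inn (S.subdiv b t) (some b)) : s ∈ inn S b ∧ s < t := by
  obtain ⟨-, -, h2⟩ := mem_inn.1 ht
  obtain ⟨k1, k2, k3⟩ := mem_inn.1 hs
  have k2' : S.al b < s := k2
  have k3' : s < t := by simpa [Sys.subdiv] using k3
  have k1' : s ∈ insert t ((S.st b).filter fun s => s ≤ t) := by simpa [Sys.subdiv] using k1
  rcases Finset.mem_insert.1 k1' with e | k
  · exact absurd e k3'.ne
  · exact ⟨mem_inn.2 ⟨(Finset.mem_filter.1 k).1, k2', k3'.trans h2⟩, k3'⟩

theorem inn_ne {S : Sys G T J B} {b b' : B} {t : ℝ} (h : b' ≠ b) :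
    inn (S.subdiv b t) (some b') = inn S b' := by
  simp [inn, Sys.subdiv, h]

theorem mu_lt [Fintype B] {S : Sys G T J B} {b : B} {t : ℝ} (ht : t ∈ inn S b) :
    mu (S.subdiv b t) < mu S := by
  have hd : Disjoint (inn (S.subdiv b t) none) (inn (S.subdiv b t) (some b)) :=
    Finset.disjoint_left.2 fun s h1 h2 => lt_asymm (inn_none ht h1).2 (inn_self ht h2).2
  have hs : inn (S.subdiv b t) none ∪ inn (S.subdiv b t) (some b) ⊆ (inn S b).erase t := by
    intro s hs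
    rcases Finset.mem_union.1 hs with h | h
    · exact Finset.mem_erase.2 ⟨(inn_none ht h).2.ne', (inn_none ht h).1⟩
    · exact Finset.mem_erase.2 ⟨(inn_self ht h).2.ne, (inn_self ht h).1⟩
  have h1 := (Finset.card_le_card hs).trans_lt (Finset.card_erase_lt_of_mem ht)
  rw [Finset.card_union_of_disjoint hd] at h1
  have h2 : ∑ b' ∈ Finset.univ.erase b, (inn (S.subdiv b t) (some b')).card =
      ∑ b' ∈ Finset.univ.erase b, (inn S b').card :=
    Finset.sum_congr rfl fun b' hb' => by rw [inn_ne (Finset.mem_erase.1 hb').1]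
  unfold mu
  rw [Fintype.sum_option, ← Finset.add_sum_erase _ _ (Finset.mem_univ b),
    ← Finset.add_sum_erase _ (fun b => (inn S b).card) (Finset.mem_univ b), h2]
  omega

theorem pa_of {S : Sys G T J B} {b : B} {t : ℝ} (ht : t ∈ inn S b) {d : Option B × Bool}
    (h : (S.subdiv b t).PA d) : S.PA (d.1.getD b, d.2) := by
  obtain ⟨-, h1, h2⟩ := mem_inn.1 ht
  obtain ⟨o, i⟩ := d
  refine ⟨?_, h.2⟩
  have k : (S.subdiv b t).al o < (S.subdiv b t).be o := h.1
  cases o with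
  | none => exact h1.trans h2
  | some b' =>
    by_cases e : b' = b
    · subst e
      exact h1.trans h2
    · show S.al b' < S.be b'
      simpa [Sys.subdiv, e] using k

variable [Group G] [MulAction G T]

theorem fin [Fintype B] {Ln : Set (Set T)} {S : Sys G T J B} (hv : S.Valid Ln)
    (hn : ∀ d, ¬ S.PA d) (h : ∀ b t, t ∉ inn S b) :
    (S.narrow S.al S.be fun b => {S.al b, S.be b}).Pre Ln := by
  refine ⟨hv.narrow (fun _ => le_rfl) hv.core.le (fun _ => le_rfl) (fun b t ht => ?_)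
    fun u hu => Sys.Sol.of_subset (fun b t ht => ?_) hu, fun d p => hn d p, fun b hb => ?_,
    fun _ _ _ => rfl⟩
  · rcases Finset.mem_insert.1 ht with rfl | ht
    · exact ⟨le_rfl, hv.core.le b⟩
    · rw [Finset.mem_singleton.1 ht]
      exact ⟨hv.core.le b, le_rfl⟩
  · obtain ⟨h1, h2⟩ := hv.core.stm b t ht
    rcases h1.eq_or_lt with e | h1
    · exact Finset.mem_insert.2 (Or.inl e.symm)
    rcases h2.eq_or_lt with e | h2
    · exact Finset.mem_insert.2 (Or.inr (Finset.mem_singleton.2 e))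
    exact absurd (mem_inn.2 ⟨ht, h1, h2⟩) (h b t)
  · have e : S.be b = S.al b := le_antisymm (not_lt.1 hb) (hv.core.le b)
    show ({S.al b, S.be b} : Finset ℝ) = {S.al b}
    rw [e]
    simp

end Qp1P

open Qp1P

theorem qp1 (h : SubdivStmt) : Qp1Stmt := by
  intro G T J B _ _ _ Ln S hv hn
  induction hm : mu S using Nat.strong_induction_on generalizing B with
  | _ n ih =>
    by_cases e : ∃ b t, t ∈ inn S b
    · obtain ⟨b, t, ht⟩ := e
      obtain ⟨-, h1, h2⟩ := mem_inn.1 ht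
      exact ih _ (hm ▸ mu_lt ht) (Option B) (S.subdiv b t)
        ((h G T J B S b t h1.le h2.le).2 Ln hv) (fun d p => hn _ (pa_of ht p)) rfl
    · exact ⟨B, inferInstance, _, fin hv hn fun b t ht => e ⟨b, t, ht⟩⟩

end Pool.Agent.MP_494aff_an.Hi

end MrgPart3

-- ======== part 4: formerly Pool.Agent.MP_494aff_an.hi.Qp2
section MrgPart4

/-! At most two ends of quadratic bases at a point. -/

namespace Pool.Agent.MP_494aff_an.Hi

open Pool.Agent.MP_494aff_an.Se Pool.Agent.MP_494aff_an.Fr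

open Classical

namespace Qp2P

open Sys

variable {G T J B : Type} {S : Sys G T J B} {j : J} {x : ℝ}

/-- Pairs of positive darts of one component, the first to the left of the second. -/
def prs (S : Sys G T J B) : Set ((B × Bool) × (B × Bool)) :=
  {p | S.Pos p.1.1 ∧ S.Pos p.2.1 ∧ S.cp p.1 = S.cp p.2 ∧ S.hi p.1 ≤ S.lo p.2}

theorem right (h : S.QdOK) {d₁ d₂ d₃ : B × Bool} (n₁ : d₁ ≠ d₂) (n₂ : d₁ ≠ d₃) (n₃ : d₂ ≠ d₃)
    (c₁ : S.cp d₁ = j) (c₂ : S.cp d₂ = j) (c₃ : S.cp d₃ = j) (ht : S.ty j = Ty.qd)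
    (h₁ : S.lo d₁ ≤ x ∧ x < S.hi d₁) (h₂ : S.lo d₂ ≤ x ∧ x < S.hi d₂)
    (h₃ : S.lo d₃ ≤ x ∧ x < S.hi d₃) : False := by
  obtain ⟨y, a, b⟩ := exists_between (lt_min h₁.2 (lt_min h₂.2 h₃.2))
  simp only [lt_min_iff] at b
  exact h d₁ d₂ d₃ y n₁ n₂ n₃ (c₂.trans c₁.symm) (c₃.trans c₁.symm) (c₁ ▸ ht) (h₁.1.trans_lt a) b.1
    (h₂.1.trans_lt a) b.2.1 (h₃.1.trans_lt a) b.2.2

theorem left (h : S.QdOK) {d₁ d₂ d₃ : B × Bool} (n₁ : d₁ ≠ d₂) (n₂ : d₁ ≠ d₃) (n₃ : d₂ ≠ d₃)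
    (c₁ : S.cp d₁ = j) (c₂ : S.cp d₂ = j) (c₃ : S.cp d₃ = j) (ht : S.ty j = Ty.qd)
    (h₁ : S.lo d₁ < x ∧ x ≤ S.hi d₁) (h₂ : S.lo d₂ < x ∧ x ≤ S.hi d₂)
    (h₃ : S.lo d₃ < x ∧ x ≤ S.hi d₃) : False := by
  obtain ⟨y, a, b⟩ := exists_between (max_lt h₁.1 (max_lt h₂.1 h₃.1))
  simp only [max_lt_iff] at a
  exact h d₁ d₂ d₃ y n₁ n₂ n₃ (c₂.trans c₁.symm) (c₃.trans c₁.symm) (c₁ ▸ ht) a.1 (b.trans_le h₁.2)
    a.2.1 (b.trans_le h₂.2) a.2.2 (b.trans_le h₃.2)

/-- No base crosses a point where two bases start. -/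
theorem cross_r (h : S.QdOK) {d₁ d₂ : B × Bool} (n : d₁ ≠ d₂) (c₁ : S.cp d₁ = j)
    (c₂ : S.cp d₂ = j) (ht : S.ty j = Ty.qd) (h₁ : S.lo d₁ = x ∧ x < S.hi d₁)
    (h₂ : S.lo d₂ = x ∧ x < S.hi d₂) (ν : B × Bool) (c : S.cp ν = j) (a : x < S.hi ν) :
    x ≤ S.lo ν := by
  by_contra b
  rw [not_le] at b
  exact right (d₃ := ν) h n (fun e => b.ne (e ▸ h₁.1)) (fun e => b.ne (e ▸ h₂.1)) c₁ c₂ c ht
    ⟨h₁.1.le, h₁.2⟩ ⟨h₂.1.le, h₂.2⟩ ⟨b.le, a⟩

/-- No base crosses a point where two bases end. -/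
theorem cross_l (h : S.QdOK) {d₁ d₂ : B × Bool} (n : d₁ ≠ d₂) (c₁ : S.cp d₁ = j)
    (c₂ : S.cp d₂ = j) (ht : S.ty j = Ty.qd) (h₁ : S.lo d₁ < x ∧ S.hi d₁ = x)
    (h₂ : S.lo d₂ < x ∧ S.hi d₂ = x) (ν : B × Bool) (c : S.cp ν = j) (a : x < S.hi ν) :
    x ≤ S.lo ν := by
  by_contra b
  rw [not_le] at b
  exact left (d₃ := ν) h n (fun e => a.ne' (e ▸ h₁.2)) (fun e => a.ne' (e ▸ h₂.2)) c₁ c₂ c ht
    ⟨h₁.1, h₁.2.ge⟩ ⟨h₂.1, h₂.2.ge⟩ ⟨b, a.le⟩

theorem sides {d : B × Bool} (hp : S.lo d < S.hi d) (h : x = S.lo d ∨ x = S.hi d) :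
    (S.lo d = x ∧ x < S.hi d) ∨ (S.lo d < x ∧ S.hi d = x) := by
  rcases h with h | h
  · exact Or.inl ⟨h.symm, h ▸ hp⟩
  · exact Or.inr ⟨h ▸ hp, h.symm⟩

/-- Three ends at a point: one base ends, one base starts, no base crosses. -/
theorem key (h : S.QdOK) {d₁ d₂ d₃ : B × Bool} (n₁ : d₁ ≠ d₂) (n₂ : d₁ ≠ d₃) (n₃ : d₂ ≠ d₃)
    (c₁ : S.cp d₁ = j) (c₂ : S.cp d₂ = j) (c₃ : S.cp d₃ = j) (ht : S.ty j = Ty.qd)
    (h₁ : (S.lo d₁ = x ∧ x < S.hi d₁) ∨ (S.lo d₁ < x ∧ S.hi d₁ = x))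
    (h₂ : (S.lo d₂ = x ∧ x < S.hi d₂) ∨ (S.lo d₂ < x ∧ S.hi d₂ = x))
    (h₃ : (S.lo d₃ = x ∧ x < S.hi d₃) ∨ (S.lo d₃ < x ∧ S.hi d₃ = x)) :
    (∀ ν, S.cp ν = j → x < S.hi ν → x ≤ S.lo ν) ∧ ∃ l r, S.cp l = j ∧ S.cp r = j ∧
      (S.lo l < x ∧ S.hi l = x) ∧ S.lo r = x ∧ x < S.hi r := by
  rcases h₁ with h₁ | h₁ <;> rcases h₂ with h₂ | h₂ <;> rcases h₃ with h₃ | h₃
  · exact (right h n₁ n₂ n₃ c₁ c₂ c₃ ht ⟨h₁.1.le, h₁.2⟩ ⟨h₂.1.le, h₂.2⟩ ⟨h₃.1.le, h₃.2⟩).elim
  · exact ⟨cross_r h n₁ c₁ c₂ ht h₁ h₂, d₃, d₁, c₃, c₁, h₃, h₁⟩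
  · exact ⟨cross_r h n₂ c₁ c₃ ht h₁ h₃, d₂, d₁, c₂, c₁, h₂, h₁⟩
  · exact ⟨cross_l h n₃ c₂ c₃ ht h₂ h₃, d₂, d₁, c₂, c₁, h₂, h₁⟩
  · exact ⟨cross_r h n₃ c₂ c₃ ht h₂ h₃, d₁, d₂, c₁, c₂, h₁, h₂⟩
  · exact ⟨cross_l h n₂ c₁ c₃ ht h₁ h₃, d₁, d₂, c₁, c₂, h₁, h₂⟩
  · exact ⟨cross_l h n₁ c₁ c₂ ht h₁ h₂, d₁, d₃, c₁, c₃, h₁, h₃⟩
  · exact (left h n₁ n₂ n₃ c₁ c₂ c₃ ht ⟨h₁.1, h₁.2.ge⟩ ⟨h₂.1, h₂.2.ge⟩ ⟨h₃.1, h₃.2.ge⟩).elim

variable [Group G]

/-- The system after the cut. -/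
noncomputable def cq (S : Sys G T J B) (j : J) (x : ℝ) : Sys G T (Option J) (Option B) :=
  S.cut j x (fun ν => x < S.hi ν) (S.ty j)

theorem cp_pos {b : B} {i : Bool} (h : S.cp (b, i) = j ∧ x < S.hi (b, i)) :
    (cq S j x).cp (some b, i) = none := if_pos h

theorem cp_neg {b : B} {i : Bool} (h : ¬ (S.cp (b, i) = j ∧ x < S.hi (b, i))) :
    (cq S j x).cp (some b, i) = some (S.cp (b, i)) := if_neg h

theorem cp_get (b : B) (i : Bool) : ((cq S j x).cp (some b, i)).getD j = S.cp (b, i) := by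
  by_cases h : S.cp (b, i) = j ∧ x < S.hi (b, i)
  · rw [cp_pos h, h.1]
    rfl
  · rw [cp_neg h]
    rfl

theorem ty_cp (b : B) (i : Bool) :
    (cq S j x).ty ((cq S j x).cp (some b, i)) = S.ty (S.cp (b, i)) := by
  by_cases h : S.cp (b, i) = j ∧ x < S.hi (b, i)
  · rw [cp_pos h, h.1]
    rfl
  · rw [cp_neg h]
    rfl

theorem not_pos : ¬ (cq S j x).Pos none := lt_irrefl (0 : ℝ)

theorem prs_lt [Finite B] {l r : B × Bool} (hm : (l, r) ∈ prs S) (cr : S.cp r = j)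
    (hl : S.hi l = x) (hr : x < S.hi r) : (prs (cq S j x)).ncard < (prs S).ncard := by
  refine lt_of_le_of_lt ?_ (Set.ncard_sdiff_singleton_lt_of_mem hm)
  refine le_trans (Set.ncard_le_ncard ?_) (Set.ncard_image_le
    (f := fun p : (B × Bool) × (B × Bool) => ((some p.1.1, p.1.2), (some p.2.1, p.2.2))))
  rintro ⟨⟨_ | b, i⟩, ⟨_ | b', i'⟩⟩ ⟨h1, h2, h3, h4⟩
  · exact (not_pos h1).elim
  · exact (not_pos h1).elim
  · exact (not_pos h2).elim
  · refine ⟨((b, i), (b', i')), ⟨⟨h1, h2, ?_, h4⟩, fun e => ?_⟩, rfl⟩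
    · exact (cp_get b i).symm.trans ((congrArg (fun o => Option.getD o j) h3).trans (cp_get b' i'))
    · obtain ⟨rfl, rfl⟩ := Prod.mk.inj e
      rw [cp_pos ⟨cr, hr⟩, cp_neg fun h => h.2.ne' hl] at h3
      cases h3

theorem pre [MulAction G T] {Ln : Set (Set T)} (h : S.Pre Ln) (hv : (cq S j x).Valid Ln) :
    (cq S j x).Pre Ln := by
  refine ⟨hv, ?_, ?_, ?_⟩
  · rintro ⟨_ | b, i⟩ hp
    · exact not_pos hp.1
    · exact h.nact (b, i) ⟨hp.1, (ty_cp b i).symm.trans hp.2⟩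
  · rintro (_ | b) hp
    · rfl
    · exact h.pt b hp
  · rintro ⟨_ | b, i⟩ hp ht
    · exact (not_pos hp).elim
    · exact h.qd (b, i) hp ((ty_cp b i).symm.trans ht)

end Qp2P

open Qp2P

theorem qp2 (h : CutStmt) : Qp2Stmt := by
  intro G T J B _ _ _ _ Ln S hS
  generalize hn : (prs S).ncard = n
  induction n using Nat.strong_induction_on generalizing J B with
  | _ n ih =>
    by_cases hf : S.Fin Ln
    · exact ⟨J, B, inferInstance, inferInstance, S, hf⟩
    have hc := hS.valid.core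
    obtain ⟨j, x, ht, hx, l, r, cl, cr, hl, hr⟩ : ∃ j x, S.ty j = Ty.qd ∧
        (∀ ν, S.cp ν = j → x < S.hi ν → x ≤ S.lo ν) ∧ ∃ l r, S.cp l = j ∧ S.cp r = j ∧
        (S.lo l < x ∧ S.hi l = x) ∧ S.lo r = x ∧ x < S.hi r := by
      by_contra hk
      refine hf ⟨hc, hS.valid.ty, hS.valid.ab, hS.nact, hS.pt, hS.qd,
        fun d₁ d₂ d₃ x n₁ n₂ n₃ c₂ c₃ ht p₁ p₂ p₃ e₁ e₂ e₃ => hk ⟨S.cp d₁, x, ht, ?_⟩⟩
      exact key hS.valid.qd n₁ n₂ n₃ rfl c₂ c₃ ht
        (sides ((Sys.pos_iff (hc.sg _) (hc.le _)).1 p₁) e₁)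
        (sides ((Sys.pos_iff (hc.sg _) (hc.le _)).1 p₂) e₂)
        (sides ((Sys.pos_iff (hc.sg _) (hc.le _)).1 p₃) e₃)
    have hv : (cq S j x).Valid Ln := (h G T J B S j x (fun ν => x < S.hi ν)
      fun d d' c _ a b y hy hy' =>
        le_antisymm (hy'.2.trans (not_lt.1 b)) ((hx d c a).trans hy.1)).2 Ln hS.valid
        (by rw [ht]; exact fun e => by cases e)
    refine ih _ ?_ (Option J) (Option B) (cq S j x) (pre hS hv) rfl
    rw [← hn]
    exact prs_lt ⟨(Sys.pos_iff (hc.sg _) (hc.le _)).2 (hl.1.trans_eq hl.2.symm),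
      (Sys.pos_iff (hc.sg _) (hc.le _)).2 (hr.1.trans_lt hr.2), cl.trans cr.symm,
      (hl.2.trans hr.1.symm).le⟩ cr hl.2 hr.2

end Pool.Agent.MP_494aff_an.Hi

end MrgPart4

-- ======== part 5: formerly Pool.Agent.MP_494aff_an.hi.Ref1
section MrgPart5

/-! Subdividing the bands at a finite set of points. -/

namespace Pool.Agent.MP_494aff_an.Hi

open Pool.Agent.MP_494aff_an.Se Pool.Agent.MP_494aff_an.Fr

open Classical

namespace Ref1

variable {G T J B : Type}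

/-- The parameter of the point `q` on the dart `d`. -/
def par (S : Sys G T J B) (p : (B × Bool) × ℝ) : ℝ := S.e p.1 * (p.2 - S.a p.1)

/-- Pairs of a dart and a point of `Q` in the interior of its base. -/
noncomputable def bad [Fintype B] (S : Sys G T J B) (Q : Finset ℝ) : Finset ((B × Bool) × ℝ) :=
  (Finset.univ ×ˢ Q).filter fun p => S.al p.1.1 < par S p ∧ par S p < S.be p.1.1

theorem mem_bad [Fintype B] {S : Sys G T J B} {Q : Finset ℝ} {p : (B × Bool) × ℝ} :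
    p ∈ bad S Q ↔ p.2 ∈ Q ∧ S.al p.1.1 < par S p ∧ par S p < S.be p.1.1 := by
  simp [bad]

theorem ref_subdiv (S : Sys G T J B) {b : B} {t : ℝ} (h1 : S.al b ≤ t) (h2 : t ≤ S.be b) :
    S.Ref (S.subdiv b t) id fun o => o.getD b := by
  refine ⟨fun _ => rfl, fun _ => rfl, fun o _ => ?_, fun _ _ _ => ⟨rfl, rfl, rfl, rfl⟩⟩
  cases o with
  | none => exact ⟨h1, le_rfl⟩
  | some b' =>
    refine ⟨le_rfl, ?_⟩
    change (if b' = b then t else S.be b') ≤ S.be b'
    split_ifs with h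
    · exact h ▸ h2
    · exact le_rfl

theorem card_lt [Fintype B] {S : Sys G T J B} {Q : Finset ℝ} {p : (B × Bool) × ℝ}
    (hp : p ∈ bad S Q) :
    (bad (S.subdiv p.1.1 (par S p)) Q).card < (bad S Q).card := by
  obtain ⟨_, h1, h2⟩ := mem_bad.1 hp
  refine lt_of_le_of_lt ?_ (Finset.card_erase_lt_of_mem hp)
  refine Finset.card_le_card_of_injOn (fun r => ((r.1.1.getD p.1.1, r.1.2), r.2)) ?_ ?_
  · rintro ⟨⟨o, i⟩, q⟩ hr
    obtain ⟨k0, k1, k2⟩ := mem_bad.1 (Finset.mem_coe.1 hr)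
    refine Finset.mem_coe.2 (Finset.mem_erase.2 ?_)
    cases o with
    | none =>
      change par S p < par S ((p.1.1, i), q) at k1
      change par S ((p.1.1, i), q) < S.be p.1.1 at k2
      refine ⟨fun h => ?_, mem_bad.2 ⟨k0, h1.trans k1, k2⟩⟩
      change ((p.1.1, i), q) = p at h
      rw [h] at k1
      exact lt_irrefl _ k1
    | some b' =>
      change S.al b' < par S ((b', i), q) at k1
      change par S ((b', i), q) < (if b' = p.1.1 then par S p else S.be b') at k2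
      refine ⟨fun h => ?_, mem_bad.2 ⟨k0, k1, ?_⟩⟩
      · change ((b', i), q) = p at h
        subst h
        simp at k2
      · change par S ((b', i), q) < S.be b'
        split_ifs at k2 with h
        · exact k2.trans (h ▸ h2)
        · exact k2
  · have key : ∀ (i : Bool) (q : ℝ), ((none, i), q) ∈ bad (S.subdiv p.1.1 (par S p)) Q →
        ((some p.1.1, i), q) ∈ bad (S.subdiv p.1.1 (par S p)) Q → False := by
      intro i q hr hr'
      obtain ⟨_, k1, _⟩ := mem_bad.1 hr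
      obtain ⟨_, _, k2⟩ := mem_bad.1 hr'
      change par S p < par S ((p.1.1, i), q) at k1
      change par S ((p.1.1, i), q) < (if p.1.1 = p.1.1 then par S p else S.be p.1.1) at k2
      rw [if_pos rfl] at k2
      exact lt_asymm k1 k2
    rintro ⟨⟨o, i⟩, q⟩ hr ⟨⟨o', i'⟩, q'⟩ hr' h
    simp only [Prod.mk.injEq] at h
    obtain ⟨⟨ho, rfl⟩, rfl⟩ := h
    cases o with
    | none =>
      cases o' with
      | none => rfl
      | some b' =>
        obtain rfl : p.1.1 = b' := ho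
        exact (key i q hr hr').elim
    | some b =>
      cases o' with
      | none =>
        obtain rfl : b = p.1.1 := ho
        exact (key i q hr' hr).elim
      | some b' =>
        obtain rfl : b = b' := ho
        rfl

end Ref1

theorem ref1 (h : SubdivStmt) : Ref1Stmt := by
  intro G T J B _ _ _ S Q hS
  induction hn : (Ref1.bad S Q).card using Nat.strong_induction_on generalizing B with
  | _ n ih =>
    rcases (Ref1.bad S Q).eq_empty_or_nonempty with he | ⟨p, hp⟩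
    · refine ⟨B, inferInstance, S, id, hS, Sys.Ref.refl S, fun d q hq => ?_⟩
      by_contra hc
      push Not at hc
      have h1 : S.lo d < S.pos d (S.e d * (q - S.a d)) ∧ S.pos d (S.e d * (q - S.a d)) < S.hi d := by
        rw [Sys.pos_par (hS.sg d)]
        exact ⟨hc.2, hc.1⟩
      have h2 := (Sys.pos_int_iff (hS.sg d) (hS.le d.1)).1 h1
      have : (d, q) ∈ Ref1.bad S Q := Ref1.mem_bad.2 ⟨hq, h2⟩
      rw [he] at this
      exact Finset.notMem_empty _ this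
    · obtain ⟨_, h1, h2⟩ := Ref1.mem_bad.1 hp
      obtain ⟨B', i', S', ρ, k1, k2, k3⟩ := ih _ (hn ▸ Ref1.card_lt hp) (Option B)
        (S.subdiv p.1.1 (Ref1.par S p)) ((h G T J B S _ _ h1.le h2.le).1 hS) rfl
      exact ⟨B', i', S', _, k1, (Ref1.ref_subdiv S h1.le h2.le).trans k2, k3⟩

end Pool.Agent.MP_494aff_an.Hi

end MrgPart5

-- ======== part 6: formerly Pool.Agent.MP_494aff_an.hi.Ref2
section MrgPart6

/-! Components are cut at the points of a finite set. -/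

namespace Pool.Agent.MP_494aff_an.Hi

open Pool.Agent.MP_494aff_an.Se Pool.Agent.MP_494aff_an.Fr

open Classical

namespace Ref2

variable {G T J B : Type}

/-- The point separates darts of the component. -/
def Bad (S : Sys G T J B) (p : J × ℝ) : Prop :=
  (∃ d, S.cp d = p.1 ∧ p.2 < S.hi d) ∧ ∃ d, S.cp d = p.1 ∧ S.lo d < p.2

/-- The bad pairs. -/
noncomputable def bad [Fintype J] (S : Sys G T J B) (Q : Finset ℝ) : Finset (J × ℝ) :=
  (Finset.univ ×ˢ Q).filter (Bad S)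

lemma mem_bad [Fintype J] {S : Sys G T J B} {Q : Finset ℝ} {p : J × ℝ} :
    p ∈ bad S Q ↔ p.2 ∈ Q ∧ Bad S p := by simp [bad]

variable [Group G] (S : Sys G T J B) (j : J) (x : ℝ) (R : B × Bool → Prop) (τ : Ty)

lemma lo_none (i : Bool) : (S.cut j x R τ).lo (none, i) = x := by
  simp [Sys.lo, Sys.pos, Sys.cut]

lemma hi_none (i : Bool) : (S.cut j x R τ).hi (none, i) = x := by
  simp [Sys.hi, Sys.pos, Sys.cut]

lemma lo_some (b : B) (i : Bool) : (S.cut j x R τ).lo (some b, i) = S.lo (b, i) := rfl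

lemma hi_some (b : B) (i : Bool) : (S.cut j x R τ).hi (some b, i) = S.hi (b, i) := rfl

lemma cp_some (b : B) (i : Bool) : (S.cut j x R τ).cp (some b, i) =
    if S.cp (b, i) = j ∧ R (b, i) then none else some (S.cp (b, i)) := rfl

lemma cp_get (b : B) (i : Bool) : S.cp (b, i) = ((S.cut j x R τ).cp (some b, i)).getD j := by
  rw [cp_some]
  split_ifs with h
  · exact h.1
  · rfl

lemma cp_none (i : Bool) : ((S.cut j x R τ).cp (none, i)).getD j = j := by cases i <;> rfl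

lemma ref (b₀ : B) : S.Ref (S.cut j x R (S.ty j)) (fun o => o.getD j) fun o => o.getD b₀ := by
  refine ⟨fun _ => rfl, fun o => by cases o <;> rfl, fun o h => ?_, fun o i h => ?_⟩
  · cases o with
    | none => exact absurd h (lt_irrefl _)
    | some b => exact ⟨le_rfl, le_rfl⟩
  · cases o with
    | none => exact absurd h (lt_irrefl _)
    | some b => exact ⟨cp_get S j x R _ b i, rfl, rfl, rfl⟩

variable {S j x τ}

lemma bad_none (h : ∀ d, S.hi d ≤ x ∨ x ≤ S.lo d) {q : ℝ}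
    (hb : Bad (S.cut j x (fun ν => x < S.hi ν) τ) (none, q)) : x < q := by
  obtain ⟨-, ⟨o, i⟩, h1, h2⟩ := hb
  cases o with
  | none => rwa [lo_none] at h2
  | some b =>
    rw [cp_some] at h1
    split_ifs at h1 with h3
    exact ((h (b, i)).resolve_left (not_le.2 h3.2)).trans_lt h2

lemma bad_some {q : ℝ} (hb : Bad (S.cut j x (fun ν => x < S.hi ν) τ) (some j, q)) : q < x := by
  obtain ⟨⟨⟨o, i⟩, h1, h2⟩, -⟩ := hb
  cases o with
  | none => rwa [hi_none] at h2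
  | some b =>
    rw [cp_some] at h1
    split_ifs at h1 with h3
    exact h2.trans_le (not_lt.1 fun h4 => h3 ⟨Option.some.inj h1, h4⟩)

lemma bad_get (h0 : Bad S (j, x)) {R : B × Bool → Prop} {p : Option J × ℝ}
    (hb : Bad (S.cut j x R τ) p) : Bad S (p.1.getD j, p.2) := by
  obtain ⟨⟨⟨o, i⟩, h1, h2⟩, ⟨o', i'⟩, h3, h4⟩ := hb
  obtain ⟨⟨d, k1, k2⟩, d', k3, k4⟩ := h0
  constructor
  · cases o with
    | none =>
      rw [hi_none] at h2
      exact ⟨d, by rw [← h1, cp_none]; exact k1, h2.trans k2⟩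
    | some b => exact ⟨(b, i), by rw [← h1]; exact cp_get S j x R τ b i, h2⟩
  · cases o' with
    | none =>
      rw [lo_none] at h4
      exact ⟨d', by rw [← h3, cp_none]; exact k3, k4.trans h4⟩
    | some b => exact ⟨(b, i'), by rw [← h3]; exact cp_get S j x R τ b i', h4⟩

lemma card_lt [Fintype J] {Q : Finset ℝ} (h : ∀ d, S.hi d ≤ x ∨ x ≤ S.lo d)
    (h0 : (j, x) ∈ bad S Q) :
    (bad (S.cut j x (fun ν => x < S.hi ν) τ) Q).card < (bad S Q).card := by
  refine lt_of_le_of_lt (Finset.card_le_card_of_injOn (fun p => (p.1.getD j, p.2)) ?_ ?_)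
    (Finset.card_erase_lt_of_mem h0)
  · rintro ⟨o, q⟩ hp
    obtain ⟨h1, h2⟩ := mem_bad.1 hp
    refine Finset.mem_coe.2 (Finset.mem_erase.2
      ⟨fun e => ?_, mem_bad.2 ⟨h1, bad_get (mem_bad.1 h0).2 h2⟩⟩)
    obtain ⟨e1, rfl⟩ := Prod.mk.inj e
    cases o with
    | none => exact lt_irrefl _ (bad_none h h2)
    | some j' =>
      obtain rfl : j' = j := e1
      exact lt_irrefl _ (bad_some h2)
  · rintro ⟨o, q⟩ hp ⟨o', q'⟩ hp' e
    obtain ⟨e1, rfl⟩ := Prod.mk.inj e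
    have h1 := (mem_bad.1 hp).2
    have h2 := (mem_bad.1 hp').2
    cases o with
    | none =>
      cases o' with
      | none => rfl
      | some j' =>
        obtain rfl : j = j' := e1
        exact absurd (bad_none h h1) (not_lt.2 (bad_some h2).le)
    | some j₁ =>
      cases o' with
      | none =>
        obtain rfl : j₁ = j := e1
        exact absurd (bad_none h h2) (not_lt.2 (bad_some h1).le)
      | some j' => exact congrArg (fun j => (some j, q)) e1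

end Ref2

open Ref2 in
theorem ref2 (h : CutStmt) : Ref2Stmt := by
  intro G T J B _ _ iJ iB S Q
  generalize hn : (bad S Q).card = n
  induction n using Nat.strong_induction_on generalizing J B with
  | _ n ih =>
    intro hc hq
    rcases (bad S Q).eq_empty_or_nonempty with he | ⟨⟨j, x⟩, h0⟩
    · refine ⟨J, B, iJ, iB, S, id, id, hc, Sys.Ref.refl S, fun q hq' j => ?_⟩
      by_contra hn'
      push Not at hn'
      exact Finset.eq_empty_iff_forall_notMem.1 he (j, q) (mem_bad.2 ⟨hq', hn'⟩)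
    · obtain ⟨hx, ⟨d, -⟩, -⟩ := mem_bad.1 h0
      have h1 : ∀ d, S.hi d ≤ x ∨ x ≤ S.lo d := fun d => hq d x hx
      have h2 := (h G T J B S j x (fun ν => x < S.hi ν) fun d d' _ _ k1 k2 y k3 k4 =>
        le_antisymm (k4.2.trans (not_lt.1 k2))
          (((h1 d).resolve_left (not_le.2 k1)).trans k3.1)).1 (S.ty j) hc
      obtain ⟨J', B', iJ', iB', S', π, ρ, k1, k2, k3⟩ := ih _ (hn ▸ card_lt h1 h0) (Option J)
        (Option B) _ rfl h2 (by
          rintro ⟨o, i⟩ q hq'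
          cases o with
          | none =>
            rw [hi_none, lo_none]
            exact le_total _ _
          | some b => exact hq (b, i) q hq')
      exact ⟨J', B', iJ', iB', S', _, _, k1, (ref S j x _ d.1).trans k2, k3⟩

end Pool.Agent.MP_494aff_an.Hi

end MrgPart6

-- ======== part 7: formerly Pool.Agent.MP_494aff_an.hi.RunA
section MrgPart7

/-! In an infinite run the carriers shrink to the limit of the starting points. -/

open Filter Topology

namespace Pool.Agent.MP_494aff_an.Hi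

open Pool.Agent.MP_494aff_an.Se Pool.Agent.MP_494aff_an.Fr

open Classical

namespace RunA

variable {G T J B : Type} [Group G] [MulAction G T] {Ln : Set (Set T)} {S : ℕ → Sys G T J B}
  {j : J} {d : ℕ → B × Bool} {z : ℕ → ℝ}

theorem z_lt (R : Run Ln S j d z) (i : ℕ) : z i < z (i + 1) := R.lo i ▸ (R.car i).lt

theorem total [Fintype B] (R : Run Ln S j d z) (i : ℕ) :
    ∑ b, ((S i).be b - (S i).al b) + z i = ∑ b, ((S 0).be b - (S 0).al b) + z 0 := by
  induction i with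
  | zero => rfl
  | succ i ih =>
    rw [← ih, Finset.sum_congr rfl fun b _ => (R.reg i).len b, Finset.sum_sub_distrib,
      Finset.sum_ite_eq' Finset.univ (d i).1, if_pos (Finset.mem_univ _), R.lo i]
    ring

theorem bdd [Fintype B] (R : Run Ln S j d z) : BddAbove (Set.range z) := by
  refine ⟨∑ b, ((S 0).be b - (S 0).al b) + z 0, ?_⟩
  rintro _ ⟨i, rfl⟩
  have h0 : 0 ≤ ∑ b, ((S i).be b - (S i).al b) :=
    Finset.sum_nonneg fun b _ => sub_nonneg.2 ((R.valid i).core.le b)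
  linarith [total R i]

theorem hi_mono (R : Run Ln S j d z) : Monotone fun i => (S i).hi (d i) := by
  refine monotone_nat_of_le_succ fun i => ?_
  obtain ⟨h1, h2, h3⟩ := (R.reg i).car
  have := (R.car (i + 1)).max (d i) (((R.reg i).pa _).2 (R.car i).pa)
    (by rw [h1, R.cp, R.cp]) (by rw [h2, R.lo])
  rwa [h3] at this

theorem sub0 (R : Run Ln S j d z) (i : ℕ) : (S 0).Sub (S i) id := by
  induction i with
  | zero => exact Sys.Sub.refl _
  | succ i ih => exact ih.trans (R.reg i).sub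

/-- The darts that start to the left of `Z`. -/
noncomputable def Lf [Fintype B] (S : Sys G T J B) (j : J) (Z : ℝ) : Finset (B × Bool) :=
  Finset.univ.filter fun ν => S.PA ν ∧ S.cp ν = j ∧ S.lo ν < Z

theorem drop [Fintype B] (R : Run Ln S j d z) {Z : ℝ} {i : ℕ} (hz : z (i + 1) ≤ Z)
    (h : ¬ ((S i).cp (op (d i)) = j ∧ (S i).lo (op (d i)) < Z)) :
    (Lf (S (i + 1)) j Z).card < (Lf (S i) j Z).card := by
  have key : ∀ ν, (S (i + 1)).cp ν = (S i).cp (op (d i)) →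
      (S (i + 1)).Bs ν ⊆ (S i).Bs (op (d i)) → ν ∉ Lf (S (i + 1)) j Z := by
    intro ν h1 h2 hν
    obtain ⟨-, k2, k3⟩ := (Finset.mem_filter.1 hν).2
    exact h ⟨h1.symm.trans k2, (Sys.lo_le_of_sub h2).1.trans_lt k3⟩
  refine Finset.card_lt_card ⟨fun ν hν => ?_, fun hs => ?_⟩
  · obtain ⟨k1, k2, k3⟩ := (Finset.mem_filter.1 hν).2
    have p := ((R.reg i).pa ν).1 k1
    rcases (R.reg i).mv ν p with ⟨m1, m2⟩ | ⟨-, -, m1, m2⟩
    · exact Finset.mem_filter.2
        ⟨Finset.mem_univ _, p, m1.symm.trans k2, (Sys.lo_le_of_sub m2).1.trans_lt k3⟩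
    · exact absurd hν (key ν m1 m2)
  · obtain ⟨ν, p, c, l, m1, m2⟩ := (R.reg i).one
    exact key ν m1 m2
      (hs (Finset.mem_filter.2 ⟨Finset.mem_univ _, p, c.trans (R.cp i), l.trans_le hz⟩))

theorem often [Fintype B] (R : Run Ln S j d z) {Z : ℝ} (hz : ∀ i, z i ≤ Z) (i₁ : ℕ) :
    ∃ i, i₁ ≤ i ∧ (S i).cp (op (d i)) = j ∧ (S i).lo (op (d i)) < Z := by
  by_contra h
  have key : ∀ k, (Lf (S (i₁ + k)) j Z).card + k ≤ (Lf (S i₁) j Z).card := by
    intro k
    induction k with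
    | zero => exact le_rfl
    | succ k ih =>
      have := drop R (hz (i₁ + k + 1)) fun h' => h ⟨i₁ + k, Nat.le_add_right _ _, h'⟩
      rw [← add_assoc i₁ k 1]
      omega
  have := key ((Lf (S i₁) j Z).card + 1)
  omega

end RunA

open RunA in
theorem runA : RunAStmt := by
  intro G T J B _ _ _ Ln S j d z R
  have hm : Monotone z := monotone_nat_of_le_succ fun i => (z_lt R i).le
  have hz : ∀ i, z i ≤ ⨆ i, z i := fun i => le_ciSup (bdd R) i
  have ht := tendsto_atTop_ciSup hm (bdd R)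
  refine ⟨_, ht, fun i₀ => ?_⟩
  generalize (⨆ i, z i) = Z at hz ht
  by_contra hlt
  rw [not_le] at hlt
  obtain ⟨ε, hε, hg⟩ := (R.valid 0).dyn.gap j Z _ hlt
  obtain ⟨i₁, hi₁⟩ := eventually_atTop.1 (ht.eventually (lt_mem_nhds (sub_lt_self Z hε)))
  obtain ⟨i, hi, hc, hl⟩ := often R hz (max i₀ i₁)
  have h0 : (S i₀).hi (d i₀) ≤ (S i).hi (d i) := hi_mono R (le_of_max_le_left hi)
  have h1 : Z - ε < z i := hi₁ i (le_of_max_le_right hi)
  have hf := (R.car i).far (hc.trans (R.cp i).symm)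
  have hlo := R.lo i
  have hzi := z_lt R i
  have hC := (R.valid i).core
  rcases Sys.sg_sign hC.sg (d i) with hs | hs
  · obtain ⟨e1, -⟩ := Sys.lo_op_pos hC.sg (hC.le _) hs
    have w := Sys.Wd.one (x₁ := Z) (x₂ := (S i₀).hi (d i₀)) (R.car i).pa
      ⟨by linarith [hz i], by linarith⟩ ⟨by linarith [hz i], h0⟩
    rw [R.cp i, hc, hs] at w
    have := hg _ _ ((sub0 R i).wd w) (abs_lt.2 ⟨by linarith, by linarith⟩)
    linarith
  · obtain ⟨e1, -⟩ := Sys.lo_op_neg hC.sg (hC.le _) hs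
    have w := Sys.Wd.one (x₁ := (S i).lo (op (d i))) (x₂ := (S i).hi (d i)) (R.car i).pa
      ⟨by linarith, by linarith⟩ ((S i).hi_mem _)
    rw [R.cp i, hc, hs] at w
    exact (R.valid i).dyn.rev j _ _ _ (by linarith) (w.cast rfl rfl (by linarith) rfl)

end Pool.Agent.MP_494aff_an.Hi

end MrgPart7

-- ======== part 8: formerly Pool.Agent.MP_494aff_an.hi.SlideCx
section MrgPart8

/-! A slide does not increase the complexity. -/

namespace Pool.Agent.MP_494aff_an.Hi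

open Pool.Agent.MP_494aff_an.Se Pool.Agent.MP_494aff_an.Fr

open Classical

namespace SlideCx

open Sys

variable {G T J B : Type} [Group G] [Fintype B] {S : Sys G T J B} {d : B × Bool}
  {N : B × Bool → Prop}

lemma pa_iff (ht : S.TyOK) (hd : S.PA d) (hN : S.Slid d N) (ν : B × Bool) :
    (S.slide d N).PA ν ↔ S.PA ν := by
  refine and_congr Iff.rfl ?_
  show S.ty (if N ν then S.cp (op d) else S.cp ν) = Ty.act ↔ _
  split_ifs with h
  · rw [(hN ν h).2.1]
    exact iff_of_true (hd.op ht).2 hd.2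
  · rfl

lemma box (he : ∀ ν, S.e ν = 1 ∨ S.e ν = -1) (hle : ∀ b, S.al b ≤ S.be b) (hN : S.Slid d N)
    (ν : B × Bool) : (S.slide d N).cp ν = S.cp (if N ν then op d else ν) ∧
      S.lo (if N ν then op d else ν) ≤ (S.slide d N).lo ν ∧
      (S.slide d N).hi ν ≤ S.hi (if N ν then op d else ν) := by
  by_cases h : N ν
  · have e : ∀ t, (S.slide d N).pos ν t = S.of d + S.sg d * S.pos ν t := fun t => by
      simp only [pos, slide, if_pos h]
      ring
    have h1 := map_mem he (hle d.1) ((hN ν h).2.2 (pos_mem (he ν) le_rfl (hle ν.1)))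
    have h2 := map_mem he (hle d.1) ((hN ν h).2.2 (pos_mem (he ν) (hle ν.1) le_rfl))
    rw [if_pos h]
    refine ⟨if_pos h, ?_, ?_⟩
    · rw [lo.eq_1 (S.slide d N), e, e]
      exact le_min h1.1 h2.1
    · rw [hi.eq_1 (S.slide d N), e, e]
      exact max_le h1.2 h2.2
  · have e : ∀ t, (S.slide d N).pos ν t = S.pos ν t := fun t => by
      simp only [pos, slide, if_neg h]
    rw [if_neg h]
    refine ⟨if_neg h, le_of_eq ?_, le_of_eq ?_⟩
    · rw [lo.eq_1 (S.slide d N), e, e]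
      rfl
    · rw [hi.eq_1 (S.slide d N), e, e]
      rfl

/-- The sign of a dart. -/
def sig (ν : B × Bool) : ℚ := if ν.2 = true then -1 else 1

lemma sum_eq (w : B → ℚ) (p : B × Bool → ℚ) :
    ∑ b, w b * (p (b, false) - p (b, true)) = ∑ ν : B × Bool, sig ν * w ν.1 * p ν := by
  rw [Fintype.sum_prod_type]
  refine Finset.sum_congr rfl fun b _ => ?_
  simp [sig]
  ring

/-- The signed weight of the darts that move. -/
noncomputable def cN (N : B × Bool → Prop) : (B → ℚ) →ₗ[ℚ] ℚ :=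
  ∑ ν : B × Bool, (if N ν then sig ν else 0) • LinearMap.proj ν.1

lemma cN_apply (w : B → ℚ) : cN N w = ∑ ν : B × Bool, (if N ν then sig ν else 0) * w ν.1 := by
  rw [cN, LinearMap.sum_apply]
  rfl

/-- The map of cycle spaces. -/
noncomputable def mp (d : B × Bool) (N : B × Bool → Prop) : (B → ℚ) →ₗ[ℚ] (B → ℚ) :=
  LinearMap.id - (cN N).smulRight (Pi.single d.1 (sig d))

lemma mp_apply (w : B → ℚ) (b : B) :
    mp d N w b = w b - cN N w * (Pi.single d.1 (sig d) : B → ℚ) b := rfl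

lemma mp_inj (hN : ∀ ν, N ν → ν.1 ≠ d.1) : Function.Injective (mp d N) := by
  refine (injective_iff_map_eq_zero _).2 fun w hw => ?_
  have h1 : ∀ b, w b = cN N w * (Pi.single d.1 (sig d) : B → ℚ) b := fun b =>
    sub_eq_zero.1 ((mp_apply w b).symm.trans (congrFun hw b))
  have h2 : cN N w = 0 := by
    rw [cN_apply]
    refine Finset.sum_eq_zero fun ν _ => ?_
    split_ifs with h
    · rw [h1 ν.1, Pi.single_eq_of_ne (hN ν h), mul_zero, mul_zero]
    · rw [zero_mul]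
  funext b
  rw [h1 b, h2, zero_mul]
  rfl

lemma mp_mem (he : ∀ ν, S.e ν = 1 ∨ S.e ν = -1) (hle : ∀ b, S.al b ≤ S.be b) (ht : S.TyOK)
    (hd : S.PA d) (hN : S.Slid d N) {w : B → ℚ} (hw : w ∈ (S.slide d N).cyc) :
    mp d N w ∈ S.cyc := by
  obtain ⟨h1, h2⟩ := hw
  have hp : ∀ ν : B × Bool, w ν.1 ≠ 0 → S.PA ν := by
    rintro ⟨b, i⟩ hb
    cases i
    · exact (pa_iff ht hd hN _).1 (h1 b hb).1
    · exact (pa_iff ht hd hN _).1 (h1 b hb).2
  refine ⟨fun b hb => ?_, fun X hX => ?_⟩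
  · by_cases h : b = d.1
    · have : ∀ i, S.PA (b, i) := fun i =>
        (eq_or_op (d := d) (ν := (b, i)) h).elim (fun e => e ▸ hd) fun e => e ▸ hd.op ht
      exact ⟨this _, this _⟩
    · rw [mp_apply, Pi.single_eq_of_ne h, mul_zero, sub_zero] at hb
      exact ⟨hp (b, false) hb, hp (b, true) hb⟩
  have hr : ∀ ν, S.PA ν → S.PA (if N ν then op d else ν) := fun ν h => by
    split_ifs
    exacts [hd.op ht, h]
  have h3 := h2 {ν | (if N ν then op d else ν) ∈ X} (by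
    rintro ν ν' p p' ⟨c, x, k1, k2, k3, k4⟩ hν
    obtain ⟨a1, a2, a3⟩ := box he hle hN ν
    obtain ⟨b1, b2, b3⟩ := box he hle hN ν'
    exact hX _ _ (hr _ ((pa_iff ht hd hN _).1 p)) (hr _ ((pa_iff ht hd hN _).1 p'))
      ⟨a1.symm.trans (c.trans b1), x, a2.trans_lt k1, k2.trans_le a3, b2.trans_lt k3,
        k4.trans_le b3⟩ hν)
  have h4 : ∀ ν, S.PA ν → N ν → (ν ∈ X ↔ d ∈ X) := fun ν p h => by
    obtain ⟨a1, a2⟩ := lo_le_of_sub (hN ν h).2.2
    have a3 := (pos_iff (he ν) (hle ν.1)).1 p.1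
    exact ⟨hX ν d p hd ⟨(hN ν h).2.1, (S.lo ν + S.hi ν) / 2, by linarith, by linarith,
        by linarith, by linarith⟩,
      hX d ν hd p ⟨(hN ν h).2.1.symm, (S.lo ν + S.hi ν) / 2, by linarith, by linarith,
        by linarith, by linarith⟩⟩
  set p : B × Bool → ℚ := fun ν => if ν ∈ X then 1 else 0 with hpd
  have h5 : ∑ ν : B × Bool, sig ν * w ν.1 * p (if N ν then op d else ν) = 0 :=
    (sum_eq w fun ν => p (if N ν then op d else ν)).symm.trans h3
  have h6 : ∑ b, w b * (p (b, false) - p (b, true)) = cN N w * (p d - p (op d)) := by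
    rw [sum_eq, ← sub_zero (∑ ν : B × Bool, sig ν * w ν.1 * p ν), ← h5, ← Finset.sum_sub_distrib,
      cN_apply, Finset.sum_mul]
    refine Finset.sum_congr rfl fun ν _ => ?_
    by_cases h : N ν
    · rw [if_pos h, if_pos h]
      by_cases h0 : w ν.1 = 0
      · simp [h0]
      · have : p ν = p d := if_congr (h4 ν (hp ν h0) h) rfl rfl
        rw [this]
        ring
    · rw [if_neg h, if_neg h]
      ring
  have h7 : ∑ b, (Pi.single d.1 (sig d) : B → ℚ) b * (p (b, false) - p (b, true)) =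
      p d - p (op d) := by
    rw [Finset.sum_eq_single d.1 (fun b _ hb => by rw [Pi.single_eq_of_ne hb, zero_mul])
      fun h => absurd (Finset.mem_univ _) h, Pi.single_eq_same]
    obtain ⟨b, i⟩ := d
    cases i <;> simp [sig]
  show ∑ b, mp d N w b * (p (b, false) - p (b, true)) = 0
  simp only [mp_apply, sub_mul, mul_assoc, Finset.sum_sub_distrib, ← Finset.mul_sum]
  rw [h6, h7, sub_self]

end SlideCx

theorem slideCx : SlideCxStmt := by
  intro G T J B _ _ _ S d N hc ht hd hN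
  exact LinearMap.finrank_le_finrank_of_injective
    (f := (SlideCx.mp d N).restrict fun w hw => SlideCx.mp_mem hc.sg hc.le ht hd hN hw)
    fun w w' h => Subtype.ext
      (SlideCx.mp_inj (fun ν hν => (hN ν hν).1) (congrArg Subtype.val h))

end Pool.Agent.MP_494aff_an.Hi

end MrgPart8

-- ======== part 9: formerly Pool.Agent.MP_494aff_an.hi.Spc
section MrgPart9

/-! Traces of lines. -/

namespace Pool.Agent.MP_494aff_an.Hi

open Pool.Agent.MP_494aff_an.Se Pool.Agent.MP_494aff_an.Fr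

theorem spc : SpcStmt := by
  intro G T J B _ _ _ Ln S l r hT hI
  refine ⟨fun j x x' A hA h1 h2 h3 hx hx' => ?_, ?_⟩
  · have hc : ContinuousOn (S.io j) (Set.Icc (l j) (r j)) :=
      (LipschitzOnWith.of_dist_le_mul (K := 1) fun a ha b hb => by
        rw [hI.iso j a b ha.1 ha.2 hb.1 hb.2, Real.dist_eq, NNReal.coe_one, one_mul]).continuousOn
    have hK : IsCompact (Set.Icc (l j) (r j) ∩ S.io j ⁻¹' A) :=
      isCompact_Icc.of_isClosed_subset
        (hc.preimage_isClosed_of_isClosed isClosed_Icc (hT.closed A hA)) Set.inter_subset_left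
    have mx : x ∈ Set.Icc (l j) (r j) ∩ S.io j ⁻¹' A := ⟨⟨h1, h2.le.trans h3⟩, hx⟩
    obtain ⟨y, hy, hy'⟩ := hK.exists_isLeast ⟨x, mx⟩
    obtain ⟨z, hz, hz'⟩ := hK.exists_isGreatest ⟨x, mx⟩
    refine ⟨y, z, hy.1.1, hy' mx, hz' ⟨⟨h1.trans h2.le, h3⟩, hx'⟩, hz.1.2, fun w w1 w2 =>
      ⟨fun h => ⟨hy' ⟨⟨w1, w2⟩, h⟩, hz' ⟨⟨w1, w2⟩, h⟩⟩, fun h =>
        hT.convex A hA _ hy.2 _ hz.2 _ ?_⟩⟩
    rw [hI.iso j y w hy.1.1 hy.1.2 w1 w2, hI.iso j w z w1 w2 hz.1.1 hz.1.2,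
      hI.iso j y z hy.1.1 hy.1.2 hz.1.1 hz.1.2, abs_of_nonpos (by linarith [h.1]),
      abs_of_nonpos (by linarith [h.2]), abs_of_nonpos (by linarith [h.1, h.2])]
    ring
  · rintro ⟨j, a, b⟩ ⟨j', c, d⟩ x x' ⟨p1, p2, p3, A, hA, pA⟩ ⟨q1, q2, q3, A', hA', qA⟩ e hx
      a1 a2 c1 c2
    obtain rfl : j = j' := e
    dsimp only at p1 p2 p3 pA q1 q2 q3 qA a1 a2 c1 c2
    have x1 : l j ≤ x := p1.trans a1
    have x2 : x' ≤ r j := a2.trans p3
    have x3 : x ≤ r j := hx.le.trans x2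
    have x4 : l j ≤ x' := x1.trans hx.le
    have hne : S.io j x ≠ S.io j x' := fun h => by
      have := hI.iso j x x' x1 x3 x4 x2
      rw [h, dist_self, eq_comm, abs_eq_zero] at this
      linarith
    obtain rfl : A = A' := hT.two A hA A' hA' _ _ hne ((pA x x1 x3).2 ⟨a1, hx.le.trans a2⟩)
      ((pA x' x4 x2).2 ⟨a1.trans hx.le, a2⟩) ((qA x x1 x3).2 ⟨c1, hx.le.trans c2⟩)
      ((qA x' x4 x2).2 ⟨c1.trans hx.le, c2⟩)
    have k1 := (qA a p1 (p2.le.trans p3)).1 ((pA a p1 (p2.le.trans p3)).2 ⟨le_rfl, p2.le⟩)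
    have k2 := (qA b (p1.trans p2.le) p3).1 ((pA b (p1.trans p2.le) p3).2 ⟨p2.le, le_rfl⟩)
    have k3 := (pA c q1 (q2.le.trans q3)).1 ((qA c q1 (q2.le.trans q3)).2 ⟨le_rfl, q2.le⟩)
    have k4 := (pA d (q1.trans q2.le) q3).1 ((qA d (q1.trans q2.le) q3).2 ⟨q2.le, le_rfl⟩)
    rw [le_antisymm k3.1 k1.1, le_antisymm k2.2 k4.2]

end Pool.Agent.MP_494aff_an.Hi

end MrgPart9

-- ======== part 10: formerly Pool.Agent.MP_494aff_an.hi.Stc
section MrgPart10

/-! The choice of a carrier. -/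

namespace Pool.Agent.MP_494aff_an.Hi

open Pool.Agent.MP_494aff_an.Se Pool.Agent.MP_494aff_an.Fr

open Classical

namespace Stc

variable {G T J B : Type}

/-- A dart with least lower end and, among these, greatest upper end. -/
theorem exists_ext [Fintype B] (S : Sys G T J B) {d₀ : B × Bool} (h : S.PA d₀) :
    ∃ d, S.PA d ∧ S.cp d = S.cp d₀ ∧ (∀ ν, S.PA ν → S.cp ν = S.cp d → S.lo d ≤ S.lo ν) ∧
      ∀ ν, S.PA ν → S.cp ν = S.cp d → S.lo ν = S.lo d → S.hi ν ≤ S.hi d := by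
  obtain ⟨d₁, h₁, m₁⟩ := Finset.exists_min_image
    (Finset.univ.filter fun ν => S.PA ν ∧ S.cp ν = S.cp d₀) S.lo ⟨d₀, by simp [h]⟩
  obtain ⟨d, hd, m⟩ := Finset.exists_max_image
    (Finset.univ.filter fun ν => S.PA ν ∧ S.cp ν = S.cp d₀ ∧ S.lo ν = S.lo d₁) S.hi
    ⟨d₁, by simpa using h₁⟩
  simp only [Finset.mem_filter, Finset.mem_univ, true_and] at h₁ m₁ hd m
  refine ⟨d, hd.1, hd.2.1, fun ν p c => ?_, fun ν p c l => ?_⟩
  · rw [hd.2.2]
    exact m₁ ν ⟨p, c.trans hd.2.1⟩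
  · exact m ν ⟨p, c.trans hd.2.1, l.trans hd.2.2⟩

/-- The next start. -/
theorem exists_z [Fintype B] (S : Sys G T J B) (d : B × Bool) :
    ∃ z, z ≤ S.hi d ∧ (∀ ν, S.PA ν → S.cp ν = S.cp d → S.hi d < S.hi ν → z ≤ S.lo ν) ∧
      (z = S.hi d ∨ ∃ ν, S.PA ν ∧ S.cp ν = S.cp d ∧ S.hi d < S.hi ν ∧ S.lo ν = z) := by
  by_cases hF : (Finset.univ.filter fun ν => S.PA ν ∧ S.cp ν = S.cp d ∧ S.hi d < S.hi ν).Nonempty
  · obtain ⟨ν₀, h₀, m⟩ := Finset.exists_min_image _ S.lo hF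
    simp only [Finset.mem_filter, Finset.mem_univ, true_and] at h₀ m
    refine ⟨min (S.hi d) (S.lo ν₀), min_le_left _ _,
      fun ν p c l => (min_le_right _ _).trans (m ν ⟨p, c, l⟩), ?_⟩
    rcases le_total (S.hi d) (S.lo ν₀) with k | k
    · exact Or.inl (min_eq_left k)
    · exact Or.inr ⟨ν₀, h₀.1, h₀.2.1, h₀.2.2, (min_eq_right k).symm⟩
  · refine ⟨S.hi d, le_rfl, fun ν p c l => absurd ⟨ν, ?_⟩ hF, Or.inl rfl⟩
    simp only [Finset.mem_filter, Finset.mem_univ, true_and]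
    exact ⟨p, c, l⟩

/-- A band with two equal bases gives a cycle. -/
theorem single_mem [Fintype B] {S : Sys G T J B} {d : B × Bool} (p : S.PA d) (p' : S.PA (op d))
    (hc : S.cp (op d) = S.cp d) (hl : S.lo (op d) = S.lo d) (hh : S.hi (op d) = S.hi d)
    (hlt : S.lo d < S.hi d) : (Pi.single d.1 1 : B → ℚ) ∈ S.cyc := by
  have o1 : S.Ov d (op d) :=
    ⟨hc.symm, (S.lo d + S.hi d) / 2, by linarith, by linarith, by linarith, by linarith⟩
  have o2 : S.Ov (op d) d :=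
    ⟨hc, (S.lo d + S.hi d) / 2, by linarith, by linarith, by linarith, by linarith⟩
  refine ⟨fun b hb => ?_, fun X hX => ?_⟩
  · obtain rfl : b = d.1 := by
      by_contra k
      exact hb (Pi.single_eq_of_ne k _)
    obtain ⟨b, i⟩ := d
    cases i
    · exact ⟨p, p'⟩
    · exact ⟨p', p⟩
  · have hx : (d.1, false) ∈ X ↔ (d.1, true) ∈ X := by
      obtain ⟨b, i⟩ := d
      cases i
      · exact ⟨hX _ _ p p' o1, hX _ _ p' p o2⟩
      · exact ⟨hX _ _ p' p o2, hX _ _ p p' o1⟩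
    rw [Finset.sum_eq_single d.1]
    · simp only [hx, sub_self, mul_zero]
    · intro b _ k
      rw [Pi.single_eq_of_ne k, zero_mul]
    · intro k
      exact absurd (Finset.mem_univ _) k

variable [Group G] [MulAction G T]

/-- A band whose two bases start at the same point of a component is removed. -/
theorem degen (h : PruneStmt) [Fintype B] {Ln : Set (Set T)} {S : Sys G T J B} {d : B × Bool}
    (hS : S.Valid Ln) (p : S.PA d) (hc : S.cp (op d) = S.cp d) (hl : S.lo (op d) = S.lo d) :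
    ∃ S' : Sys G T J B, S'.Valid Ln ∧ S'.cx < S.cx := by
  have he := hS.core.sg
  have hle := hS.core.le
  have hlt : S.lo d < S.hi d := (Sys.pos_iff (he d) (hle _)).1 p.1
  have w := Sys.Wd.one p (S.lo_mem d) (S.hi_mem d)
  rcases Sys.sg_sign he d with hs | hs
  · obtain ⟨k1, k2⟩ := Sys.lo_op_pos he (hle d.1) hs
    have h0 : S.of d = 0 := by linarith
    have hg : S.lb d = 1 := hS.dyn.fix _ _ _ _ hlt (w.cast hc hs h0 rfl)
    have hga : S.ga (op d) = S.ga d := mul_inv_eq_one.1 hg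
    have ha : S.a (op d) = S.a d := by
      have := h0
      rw [Sys.of, hs] at this
      linarith
    have hee : S.e (op d) = S.e d := by
      have := hs
      rw [Sys.sg] at this
      rcases he d with k | k <;> rw [k] at this ⊢ <;> linarith
    have h1 : ∀ b, S.al b ≤ S.al b := fun _ => le_rfl
    have h2 : ∀ b, S.al b ≤ if b = d.1 then S.al b else S.be b := fun b => by
      split_ifs
      · exact le_rfl
      · exact hle b
    have h3 : ∀ b, (if b = d.1 then S.al b else S.be b) ≤ S.be b := fun b => by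
      split_ifs
      · exact hle b
      · exact le_rfl
    refine ⟨S.narrow S.al (fun b => if b = d.1 then S.al b else S.be b)
      (fun b => if b = d.1 then {S.al b} else S.st b), hS.narrow h1 h2 h3 (fun b t ht => ?_)
      ((h G T J B S d _ _ _ fun b hb => ?_).2 hc ha hee hga ?_), ?_⟩
    · by_cases k : b = d.1
      · simp only [k, if_true, Finset.mem_singleton] at ht ⊢
        exact ⟨ht.ge, ht.le⟩
      · simp only [k, if_false] at ht ⊢
        exact hS.core.stm b t ht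
    · simp only [hb, if_false]
      exact subset_rfl
    · simp
    · refine Submodule.finrank_lt_finrank_of_lt (lt_of_le_of_ne (Sys.narrow_cyc he h1 h2 h3) ?_)
      intro e
      have m := single_mem p (p.op hS.ty) hc hl (by linarith) hlt
      rw [← e] at m
      have := (m.1 d.1 (by simp)).1.1
      simp [Sys.Pos, Sys.narrow] at this
  · obtain ⟨k1, _⟩ := Sys.lo_op_neg he (hle d.1) hs
    exact absurd (w.cast hc hs (by linarith) rfl) (hS.dyn.rev _ _ _ _ hlt)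

end Stc

theorem stc (h : PruneStmt) : StcStmt := by
  intro G T J B _ _ _ Ln S d₀ hS p₀
  obtain ⟨d, p, c, hl, hm⟩ := Stc.exists_ext S p₀
  by_cases k : S.cp (op d) = S.cp d ∧ S.lo (op d) = S.lo d
  · exact Or.inl (Stc.degen h hS p k.1 k.2)
  obtain ⟨z, z1, z2, z3⟩ := Stc.exists_z S d
  have he := hS.core.sg
  have hle := hS.core.le
  refine Or.inr ⟨d, z, c, p, hl, hm, ?_, z1, z2, z3, fun hc => ?_⟩
  · rcases z3 with rfl | ⟨ν, q, cν, lν, rfl⟩
    · exact (Sys.pos_iff (he d) (hle _)).1 p.1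
    · refine lt_of_le_of_ne (hl ν q cν) fun e => ?_
      exact absurd (hm ν q cν e.symm) (not_le.2 lν)
  · have p' := p.op hS.ty
    have l : S.lo d < S.lo (op d) := lt_of_le_of_ne (hl _ p' hc) fun e => k ⟨hc, e.symm⟩
    have e1 := Sys.hi_sub_lo (he d) (hle _)
    have e2 := Sys.hi_sub_lo (d := op d) (he _) (hle _)
    rw [op_fst] at e2
    exact z2 _ p' hc (by linarith)

end Pool.Agent.MP_494aff_an.Hi

end MrgPart10

-- ======== part 11: formerly Pool.Agent.MP_494aff_an.hi.Str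
section MrgPart11

/-! One step of the machine is regular or removes a dart. -/

namespace Pool.Agent.MP_494aff_an.Hi

open Pool.Agent.MP_494aff_an.Se Pool.Agent.MP_494aff_an.Fr

open Classical

namespace StrP

open Sys

variable {G T J B : Type} {S : Sys G T J B} {d ν : B × Bool} {z : ℝ}

theorem not_mv (h : ν.1 = d.1) : ¬ S.Mv d z ν := fun k => k.1 h

theorem slid (he : ∀ d, S.e d = 1 ∨ S.e d = -1) (hle : ∀ b, S.al b ≤ S.be b) (hc : S.Car d z) :
    S.Slid d (S.Mv d z) := by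
  rintro ν ⟨h1, h2, h3, h4⟩
  refine ⟨h1, h2, Set.Icc_subset_Icc h3 (not_lt.1 fun k => ?_)⟩
  have hp : S.Pos ν.1 := (pos_iff (he ν) (hle _)).2 (by linarith [hc.le])
  linarith [hc.min ν ⟨hp, h2 ▸ hc.pa.2⟩ h2 k]

variable [Group G] [Fintype B]

theorem step_al (b : B) :
    (S.step d z).al b = if b = d.1 ∧ S.e d = 1 then z - S.a d else S.al b := rfl

theorem step_be (b : B) :
    (S.step d z).be b = if b = d.1 ∧ S.e d ≠ 1 then S.a d - z else S.be b := rfl

theorem step_cp : (S.step d z).cp ν = if S.Mv d z ν then S.cp (op d) else S.cp ν := rfl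

theorem step_a (h : ¬ S.Mv d z ν) : (S.step d z).a ν = S.a ν := if_neg h

theorem step_e (h : ¬ S.Mv d z ν) : (S.step d z).e ν = S.e ν := if_neg h

theorem dom (he : ∀ d, S.e d = 1 ∨ S.e d = -1) (hle : ∀ b, S.al b ≤ S.be b) (hc : S.Car d z)
    (b : B) : S.al b ≤ (S.step d z).al b ∧ (S.step d z).al b ≤ (S.step d z).be b ∧
      (S.step d z).be b ≤ S.be b ∧ (S.step d z).be b - (S.step d z).al b =
        S.be b - S.al b - if b = d.1 then z - S.lo d else 0 := by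
  have l1 := hc.lt
  have l2 := hc.le
  rw [step_al, step_be]
  by_cases hb : b = d.1
  · subst hb
    rcases he d with h | h
    · obtain ⟨k1, k2⟩ := lo_hi_pos h (hle _)
      rw [if_pos ⟨rfl, h⟩, if_neg fun k => k.2 h, if_pos rfl]
      refine ⟨?_, ?_, ?_, ?_⟩ <;> linarith
    · obtain ⟨k1, k2⟩ := lo_hi_neg h (hle _)
      have h' : S.e d ≠ 1 := by rw [h]; norm_num
      rw [if_neg fun k => h' k.2, if_pos ⟨rfl, h'⟩, if_pos rfl]
      refine ⟨?_, ?_, ?_, ?_⟩ <;> linarith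
  · rw [if_neg fun k => hb k.1, if_neg fun k => hb k.1, if_neg hb, sub_zero]
    exact ⟨le_rfl, hle b, le_rfl, rfl⟩

theorem step_ty (ht : S.TyOK) (hc : S.Car d z) :
    (S.step d z).ty ((S.step d z).cp ν) = S.ty (S.cp ν) := by
  show S.ty _ = _
  rw [step_cp]
  split_ifs with h
  · rw [h.2.1, ht d hc.pa.1]
  · rfl

theorem pa_of (he : ∀ d, S.e d = 1 ∨ S.e d = -1) (hle : ∀ b, S.al b ≤ S.be b) (ht : S.TyOK)
    (hc : S.Car d z) (h : (S.step d z).PA ν) : S.PA ν := by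
  obtain ⟨k1, -, k3, -⟩ := dom he hle hc ν.1
  exact ⟨lt_of_le_of_lt k1 (lt_of_lt_of_le h.1 k3), (step_ty ht hc).symm.trans h.2⟩

theorem bs_out (he : ∀ d, S.e d = 1 ∨ S.e d = -1) (hle : ∀ b, S.al b ≤ S.be b) (hc : S.Car d z)
    (h : ¬ S.Mv d z ν) : (S.step d z).Bs ν ⊆ S.Bs ν := by
  obtain ⟨k1, k2, k3, -⟩ := dom he hle hc ν.1
  exact bs_sub (he ν) (step_a h) (step_e h) k1 k2 k3

theorem bs_in (he : ∀ d, S.e d = 1 ∨ S.e d = -1) (hle : ∀ b, S.al b ≤ S.be b) (hc : S.Car d z)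
    (h : S.Mv d z ν) : (S.step d z).Bs ν ⊆ S.Bs (op d) := by
  obtain ⟨k1, k2, k3, -⟩ := dom he hle hc ν.1
  have ha : (S.step d z).a ν = S.of d + S.sg d * S.a ν := if_pos h
  have hE : (S.step d z).e ν = S.sg d * S.e ν := if_pos h
  have hs : (S.step d z).e ν = 1 ∨ (S.step d z).e ν = -1 := by
    rw [hE]
    rcases sg_sign he d with s | s <;> rcases he ν with s' | s' <;> simp [s, s']
  intro x hx
  obtain ⟨t, t1, t2, rfl⟩ := exists_pos hs k2 hx
  have e : (S.step d z).pos ν t = S.of d + S.sg d * S.pos ν t := by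
    simp only [pos, ha, hE]
    ring
  rw [e]
  exact map_mem he (hle _) ((slid he hle hc ν h).2.2 (pos_mem (he ν) (k1.trans t1) (t2.trans k3)))

theorem car (he : ∀ d, S.e d = 1 ∨ S.e d = -1) (hle : ∀ b, S.al b ≤ S.be b) (hc : S.Car d z) :
    (S.step d z).lo d = z ∧ (S.step d z).hi d = S.hi d := by
  have n : ¬ S.Mv d z d := not_mv rfl
  obtain ⟨-, k2, -, -⟩ := dom he hle hc d.1
  rcases he d with h | h
  · obtain ⟨l1, l2⟩ := lo_hi_pos ((step_e n).trans h) k2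
    rw [l1, l2, (lo_hi_pos h (hle _)).2, step_a n, step_al, step_be, if_pos ⟨rfl, h⟩,
      if_neg fun k => k.2 h]
    exact ⟨by ring, rfl⟩
  · obtain ⟨l1, l2⟩ := lo_hi_neg ((step_e n).trans h) k2
    have h' : S.e d ≠ 1 := by rw [h]; norm_num
    rw [l1, l2, (lo_hi_neg h (hle _)).2, step_a n, step_al, step_be, if_pos ⟨rfl, h'⟩,
      if_neg fun k => h' k.2]
    exact ⟨by ring, rfl⟩

end StrP

open StrP Sys in
theorem str (h : SlideStmt) : StrStmt := by
  intro G T J B _ _ _ Ln S d z hv hw hc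
  have he := hv.core.sg
  have hle := hv.core.le
  have hl := hi_sub_lo (he d) (hle _)
  refine ⟨fun hz => ?_, fun hz => ⟨fun ν => ⟨pa_of he hle hv.ty hc, fun p => ⟨?_, ?_⟩⟩,
    fun b => (dom he hle hc b).2.2.2, fun ν _ => ?_, ?_, ⟨if_neg (not_mv rfl), car he hle hc⟩,
    fun ν p k => ?_, ?_⟩⟩
  · refine Finset.card_lt_card ⟨fun ν k => ?_, fun k => ?_⟩
    · exact Finset.mem_filter.2 ⟨Finset.mem_univ _, pa_of he hle hv.ty hc (Finset.mem_filter.1 k).2⟩
    · have p : (S.step d z).al d.1 < (S.step d z).be d.1 :=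
        (Finset.mem_filter.1 (k (Finset.mem_filter.2 ⟨Finset.mem_univ _, hc.pa⟩))).2.1
      have := (dom he hle hc d.1).2.2.2
      rw [if_pos rfl] at this
      linarith
  · have k := (dom he hle hc ν.1).2.2.2
    have p' : S.al ν.1 < S.be ν.1 := p.1
    show (S.step d z).al ν.1 < (S.step d z).be ν.1
    split_ifs at k with hb
    · rw [hb] at k ⊢
      linarith
    · linarith
  · exact (step_ty hv.ty hc).trans p.2
  · by_cases m : S.Mv d z ν
    · exact Or.inr ⟨m.2.1, (slid he hle hc ν m).2.2, if_pos m, bs_in he hle hc m⟩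
    · exact Or.inl ⟨if_neg m, bs_out he hle hc m⟩
  · obtain ⟨Q, hQ⟩ := hw
    obtain ⟨x, ⟨x1, x2⟩, x3⟩ := (Set.Ioo_infinite hc.lt).exists_notMem_finset Q
    obtain ⟨ν, n1, n2, n3, n4⟩ := hQ d hc.pa x ⟨x1.le, x2.le.trans hc.le⟩ x3
    have m : S.Mv d z ν := by
      refine ⟨fun k => ?_, n3, hc.left ν n2 n3, n4.1.trans_lt x2⟩
      obtain rfl := (eq_or_op k).resolve_left n1
      linarith [hc.far n3, n4.1]
    exact ⟨ν, n2, n3, m.2.2.2, if_pos m, bs_in he hle hc m⟩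
  · by_cases m : S.Mv d z ν
    · exact (hc.far ((if_pos m).symm.trans k)).trans (lo_le_of_sub (bs_in he hle hc m)).1
    have k' : S.cp ν = S.cp d := (if_neg m).symm.trans k
    have l := (lo_le_of_sub (bs_out he hle hc m)).1
    by_cases hb : ν.1 = d.1
    · rcases eq_or_op hb with rfl | rfl
      · exact (car he hle hc).1.ge
      · exact (hc.far k').trans l
    · exact (not_lt.1 fun k => m ⟨hb, k', hc.left ν (pa_of he hle hv.ty hc p) k', k⟩).trans l
  · obtain ⟨v, s⟩ := h G T J B Ln S d _ hv hc.pa (slid he hle hc)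
    exact s.trans (narrow_sub v.core.sg (fun b => (dom he hle hc b).1)
      (fun b => (dom he hle hc b).2.1) fun b => (dom he hle hc b).2.2.1)

end Pool.Agent.MP_494aff_an.Hi

end MrgPart11

-- ======== part 12: formerly Pool.Agent.MP_494aff_an.hi.Stv
section MrgPart12

/-! One step of the machine keeps validity and does not raise the complexity. -/

namespace Pool.Agent.MP_494aff_an.Hi

open Pool.Agent.MP_494aff_an.Se Pool.Agent.MP_494aff_an.Fr

open Classical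

namespace StvP

open Sys

variable {G T J B : Type} {S : Sys G T J B} {d ν : B × Bool} {z : ℝ}

theorem not_mv (h : ν.1 = d.1) : ¬ S.Mv d z ν := fun k => k.1 h

theorem slid (he : ∀ d, S.e d = 1 ∨ S.e d = -1) (hle : ∀ b, S.al b ≤ S.be b) (hc : S.Car d z) :
    S.Slid d (S.Mv d z) := by
  rintro ν ⟨h1, h2, h3, h4⟩
  refine ⟨h1, h2, Set.Icc_subset_Icc h3 (not_lt.1 fun k => ?_)⟩
  have hp : S.Pos ν.1 := (pos_iff (he ν) (hle _)).2 (by linarith [hc.le])
  linarith [hc.min ν ⟨hp, h2 ▸ hc.pa.2⟩ h2 k]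

theorem dom (he : ∀ d, S.e d = 1 ∨ S.e d = -1) (hle : ∀ b, S.al b ≤ S.be b) (hc : S.Car d z)
    (b : B) : S.al b ≤ (if b = d.1 ∧ S.e d = 1 then z - S.a d else S.al b) ∧
      (if b = d.1 ∧ S.e d = 1 then z - S.a d else S.al b) ≤
        (if b = d.1 ∧ S.e d ≠ 1 then S.a d - z else S.be b) ∧
      (if b = d.1 ∧ S.e d ≠ 1 then S.a d - z else S.be b) ≤ S.be b ∧
      ∀ t, S.al b ≤ t → t ≤ S.be b → (b = d.1 → z ≤ S.pos d t) →
        (if b = d.1 ∧ S.e d = 1 then z - S.a d else S.al b) ≤ t ∧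
          t ≤ if b = d.1 ∧ S.e d ≠ 1 then S.a d - z else S.be b := by
  have l1 := hc.lt
  have l2 := hc.le
  by_cases hb : b = d.1
  · subst hb
    rcases he d with h | h
    · obtain ⟨k1, k2⟩ := lo_hi_pos h (hle _)
      rw [if_pos ⟨rfl, h⟩, if_neg fun k => k.2 h]
      refine ⟨by linarith, by linarith, le_rfl, fun t _ t2 t3 => ⟨?_, t2⟩⟩
      have := t3 rfl
      simp only [pos, h] at this
      linarith
    · obtain ⟨k1, k2⟩ := lo_hi_neg h (hle _)
      have h' : S.e d ≠ 1 := by rw [h]; norm_num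
      rw [if_neg fun k => h' k.2, if_pos ⟨rfl, h'⟩]
      refine ⟨le_rfl, by linarith, by linarith, fun t t1 _ t3 => ⟨t1, ?_⟩⟩
      have := t3 rfl
      simp only [pos, h] at this
      linarith
  · rw [if_neg fun k => hb k.1, if_neg fun k => hb k.1]
    exact ⟨le_rfl, hle b, le_rfl, fun t t1 t2 _ => ⟨t1, t2⟩⟩

variable [Group G] [Fintype B]

theorem pos_out {N : B × Bool → Prop} (h : ¬ N ν) (t : ℝ) :
    (S.slide d N).pos ν t = S.pos ν t := by
  simp only [pos, slide, if_neg h]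

theorem pos_in {N : B × Bool → Prop} (h : N ν) (t : ℝ) :
    (S.slide d N).pos ν t = S.of d + S.sg d * S.pos ν t := by
  simp only [pos, slide, if_pos h]
  ring

/-- After the slide no other dart meets the part of the carrier to the left of `z`. -/
theorem free (he : ∀ d, S.e d = 1 ∨ S.e d = -1) (hle : ∀ b, S.al b ≤ S.be b) (hc : S.Car d z)
    (hν : ν ≠ d) (hcp : (S.slide d (S.Mv d z)).cp ν = S.cp d) {s : ℝ} (s1 : S.al ν.1 ≤ s)
    (s2 : s ≤ S.be ν.1) :
    z ≤ (S.slide d (S.Mv d z)).pos ν s ∨ (S.slide d (S.Mv d z)).pos ν s < S.lo d := by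
  have hm := pos_mem (he ν) s1 s2
  by_cases h : S.Mv d z ν
  · have h1 : S.cp (op d) = S.cp d := (if_pos h).symm.trans hcp
    rw [pos_in h]
    exact Or.inl ((hc.far h1).trans (map_mem he (hle _) ((slid he hle hc ν h).2.2 hm)).1)
  have h1 : S.cp ν = S.cp d := (if_neg h).symm.trans hcp
  rw [pos_out h]
  by_cases hb : ν.1 = d.1
  · obtain rfl := (eq_or_op hb).resolve_left hν
    exact Or.inl ((hc.far h1).trans hm.1)
  by_cases hz : z ≤ S.lo ν
  · exact Or.inl (hz.trans hm.1)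
  have h2 : S.lo ν < S.lo d := not_le.1 fun k => h ⟨hb, h1, k, not_le.1 hz⟩
  have h3 : ¬ S.lo ν < S.hi ν := fun k =>
    absurd (hc.left ν ⟨(pos_iff (he ν) (hle _)).2 k, h1 ▸ hc.pa.2⟩ h1) (not_le.2 h2)
  exact Or.inr (lt_of_le_of_lt (hm.2.trans (not_lt.1 h3)) h2)

end StvP

open StvP Sys in
theorem stv (h1 : SlideStmt) (h2 : SlideCxStmt) (h3 : PruneStmt) : StvStmt := by
  intro G T J B _ _ _ Ln S d z hv hc
  have he := hv.core.sg
  have hle := hv.core.le
  have hs := slid he hle hc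
  have hv1 := (h1 G T J B Ln S d _ hv hc.pa hs).1
  have hn : ¬ S.Mv d z d := not_mv rfl
  have hd := dom he hle hc
  refine ⟨hv1.narrow (fun b => (hd b).1) (fun b => (hd b).2.1) (fun b => (hd b).2.2.1)
    (fun b t ht => ?_) ((h3 G T J B _ d _ _ _ fun b hb => ?_).1 ?_ fun t ht ht' ν hν hcp s hs' => ?_),
    (narrow_cx hv1.core.sg (fun b => (hd b).1) (fun b => (hd b).2.1)
      (fun b => (hd b).2.2.1)).trans (h2 G T J B S d _ hv.core hv.ty hc.pa hs)⟩
  · by_cases hb : b = d.1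
    · rw [if_pos hb, Finset.mem_filter] at ht
      exact (hd b).2.2.2 t (hv1.core.stm b t ht.1).1 (hv1.core.stm b t ht.1).2 fun _ => ht.2
    · rw [if_neg hb] at ht
      exact (hd b).2.2.2 t (hv.core.stm b t ht).1 (hv.core.stm b t ht).2 fun k => absurd k hb
  · simp only [slide, if_neg hb]
    exact Finset.Subset.refl _
  · rcases hv1.core.sg d with k | k <;> rw [k] <;> norm_num
  · have k1 : S.pos d t < z := not_le.1 fun k => ht' (by
      simp only [if_true]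
      exact Finset.mem_filter.2 ⟨ht, k⟩)
    have k2 := (pos_mem (he d) (hv1.core.stm _ t ht).1 (hv1.core.stm _ t ht).2).1
    rw [pos_out hn]
    rcases free he hle hc hν (hcp.trans (if_neg hn)) (hv1.core.stm _ s hs').1
      (hv1.core.stm _ s hs').2 with k | k
    · exact (lt_of_lt_of_le k1 k).ne'
    · exact (lt_of_lt_of_le k k2).ne

end Pool.Agent.MP_494aff_an.Hi

end MrgPart12

-- ======== part 13: formerly Pool.Agent.MP_494aff_an.hi.Stw
section MrgPart13

/-! One step of the machine keeps weight two. -/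

namespace Pool.Agent.MP_494aff_an.Hi

open Pool.Agent.MP_494aff_an.Se Pool.Agent.MP_494aff_an.Fr

open Classical

namespace StwP

open Sys

variable {G T J B : Type} {S : Sys G T J B} {d ν : B × Bool} {z x : ℝ}

theorem not_mv (h : ν.1 = d.1) : ¬ S.Mv d z ν := fun k => k.1 h

theorem slid (he : ∀ d, S.e d = 1 ∨ S.e d = -1) (hle : ∀ b, S.al b ≤ S.be b) (hc : S.Car d z)
    (h : S.Mv d z ν) : S.Bs ν ⊆ S.Bs d := by
  obtain ⟨-, h2, h3, h4⟩ := h
  refine Set.Icc_subset_Icc h3 (not_lt.1 fun k => ?_)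
  have hp : S.Pos ν.1 := (pos_iff (he ν) (hle _)).2 (by linarith [hc.le])
  linarith [hc.min ν ⟨hp, h2 ▸ hc.pa.2⟩ h2 k]

theorem right (hc : S.Car d z) (p : S.PA ν) (k : S.cp ν = S.cp d) (m : ¬ S.Mv d z ν)
    (n : ν ≠ d) : z ≤ S.lo ν := by
  by_cases hb : ν.1 = d.1
  · obtain rfl := (eq_or_op hb).resolve_left n
    exact hc.far k
  · exact not_lt.1 fun l => m ⟨hb, k, hc.left ν p k, l⟩

theorem phi_surj (he : ∀ d, S.e d = 1 ∨ S.e d = -1) (d : B × Bool) (x : ℝ) :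
    ∃ y, x = S.of d + S.sg d * y := by
  refine ⟨S.of (op d) + S.sg (op d) * x, ?_⟩
  have := of_op he (op d) x
  rw [op_op] at this
  exact this.symm

theorem phi_mem (he : ∀ d, S.e d = 1 ∨ S.e d = -1) (hle : ∀ b, S.al b ≤ S.be b)
    (h : S.of d + S.sg d * x ∈ S.Bs (op d)) : x ∈ S.Bs d := by
  have := map_mem he (hle (op d).1) h
  rwa [of_op he, op_op] at this

variable [Group G] [Fintype B]

theorem step_al (b : B) :
    (S.step d z).al b = if b = d.1 ∧ S.e d = 1 then z - S.a d else S.al b := rfl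

theorem step_be (b : B) :
    (S.step d z).be b = if b = d.1 ∧ S.e d ≠ 1 then S.a d - z else S.be b := rfl

theorem step_cp : (S.step d z).cp ν = if S.Mv d z ν then S.cp (op d) else S.cp ν := rfl

theorem step_a (h : ¬ S.Mv d z ν) : (S.step d z).a ν = S.a ν := if_neg h

theorem step_e (h : ¬ S.Mv d z ν) : (S.step d z).e ν = S.e ν := if_neg h

theorem step_pos (h : ¬ S.Mv d z ν) (t : ℝ) : (S.step d z).pos ν t = S.pos ν t := by
  simp only [pos, step_a h, step_e h]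

theorem al_ne {b : B} (h : b ≠ d.1) : (S.step d z).al b = S.al b := if_neg fun k => h k.1

theorem be_ne {b : B} (h : b ≠ d.1) : (S.step d z).be b = S.be b := if_neg fun k => h k.1

theorem dom (he : ∀ d, S.e d = 1 ∨ S.e d = -1) (hle : ∀ b, S.al b ≤ S.be b) (hc : S.Car d z)
    (b : B) : S.al b ≤ (S.step d z).al b ∧ (S.step d z).al b ≤ (S.step d z).be b ∧
      (S.step d z).be b ≤ S.be b := by
  have l1 := hc.lt
  have l2 := hc.le
  rw [step_al, step_be]
  by_cases hb : b = d.1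
  · subst hb
    rcases he d with h | h
    · obtain ⟨k1, k2⟩ := lo_hi_pos h (hle _)
      rw [if_pos ⟨rfl, h⟩, if_neg fun k => k.2 h]
      refine ⟨?_, ?_, ?_⟩ <;> linarith
    · obtain ⟨k1, k2⟩ := lo_hi_neg h (hle _)
      have h' : S.e d ≠ 1 := by rw [h]; norm_num
      rw [if_neg fun k => h' k.2, if_pos ⟨rfl, h'⟩]
      refine ⟨?_, ?_, ?_⟩ <;> linarith
  · rw [if_neg fun k => hb k.1, if_neg fun k => hb k.1]
    exact ⟨le_rfl, hle b, le_rfl⟩

theorem step_ty (ht : S.TyOK) (hc : S.Car d z) :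
    (S.step d z).ty ((S.step d z).cp ν) = S.ty (S.cp ν) := by
  show S.ty _ = _
  rw [step_cp]
  split_ifs with h
  · rw [h.2.1, ht d hc.pa.1]
  · rfl

theorem pa_of (he : ∀ d, S.e d = 1 ∨ S.e d = -1) (hle : ∀ b, S.al b ≤ S.be b) (ht : S.TyOK)
    (hc : S.Car d z) (h : (S.step d z).PA ν) : S.PA ν := by
  obtain ⟨k1, -, k3⟩ := dom he hle hc ν.1
  exact ⟨lt_of_le_of_lt k1 (lt_of_lt_of_le h.1 k3), (step_ty ht hc).symm.trans h.2⟩

theorem pa_ne (ht : S.TyOK) (hc : S.Car d z) (hb : ν.1 ≠ d.1) (h : S.PA ν) :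
    (S.step d z).PA ν := by
  refine ⟨?_, (step_ty ht hc).trans h.2⟩
  show (S.step d z).al ν.1 < (S.step d z).be ν.1
  rw [al_ne hb, be_ne hb]
  exact h.1

theorem bs_out (he : ∀ d, S.e d = 1 ∨ S.e d = -1) (hle : ∀ b, S.al b ≤ S.be b) (hc : S.Car d z)
    (h : ¬ S.Mv d z ν) : (S.step d z).Bs ν ⊆ S.Bs ν := by
  obtain ⟨k1, k2, k3⟩ := dom he hle hc ν.1
  exact bs_sub (he ν) (step_a h) (step_e h) k1 k2 k3

theorem bs_same (hb : ν.1 ≠ d.1) (h : ¬ S.Mv d z ν) : (S.step d z).Bs ν = S.Bs ν := by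
  simp only [Bs, lo, hi, step_pos h, al_ne hb, be_ne hb]

theorem bs_mv (he : ∀ d, S.e d = 1 ∨ S.e d = -1) (hle : ∀ b, S.al b ≤ S.be b)
    (h : S.Mv d z ν) : S.of d + S.sg d * x ∈ (S.step d z).Bs ν ↔ x ∈ S.Bs ν := by
  have ha : (S.step d z).a ν = S.of d + S.sg d * S.a ν := if_pos h
  have hE : (S.step d z).e ν = S.sg d * S.e ν := if_pos h
  have hs : (S.step d z).e ν = 1 ∨ (S.step d z).e ν = -1 := by
    rw [hE]
    rcases sg_sign he d with s | s <;> rcases he ν with s' | s' <;> simp [s, s']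
  have e : ∀ t, (S.step d z).pos ν t = S.of d + S.sg d * S.pos ν t := fun t => by
    simp only [pos, ha, hE]
    ring
  have l : (S.step d z).al ν.1 ≤ (S.step d z).be ν.1 := by
    rw [al_ne h.1, be_ne h.1]
    exact hle _
  rw [← pos_par (he ν) x, ← e, pos_mem_iff hs l, pos_mem_iff (he ν) (hle _), al_ne h.1, be_ne h.1]

theorem car (he : ∀ d, S.e d = 1 ∨ S.e d = -1) (hle : ∀ b, S.al b ≤ S.be b) (hc : S.Car d z) :
    (S.step d z).lo d = z ∧ (S.step d z).hi d = S.hi d := by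
  have n : ¬ S.Mv d z d := not_mv rfl
  obtain ⟨-, k2, -⟩ := dom he hle hc d.1
  rcases he d with h | h
  · obtain ⟨l1, l2⟩ := lo_hi_pos ((step_e n).trans h) k2
    rw [l1, l2, (lo_hi_pos h (hle _)).2, step_a n, step_al, step_be, if_pos ⟨rfl, h⟩,
      if_neg fun k => k.2 h]
    exact ⟨by ring, rfl⟩
  · obtain ⟨l1, l2⟩ := lo_hi_neg ((step_e n).trans h) k2
    have h' : S.e d ≠ 1 := by rw [h]; norm_num
    rw [l1, l2, (lo_hi_neg h (hle _)).2, step_a n, step_al, step_be, if_pos ⟨rfl, h'⟩,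
      if_neg fun k => h' k.2]
    exact ⟨by ring, rfl⟩

theorem pos_car (he : ∀ d, S.e d = 1 ∨ S.e d = -1) (hle : ∀ b, S.al b ≤ S.be b)
    (hc : S.Car d z) : (S.step d z).Pos d.1 ↔ z < S.hi d := by
  have n : ¬ S.Mv d z d := not_mv rfl
  rw [pos_iff ((step_e n).symm ▸ he d) (dom he hle hc d.1).2.1, (car he hle hc).1,
    (car he hle hc).2]

/-- Points to the right of `z` stay in the carrier. -/
theorem lemB (he : ∀ d, S.e d = 1 ∨ S.e d = -1) (hle : ∀ b, S.al b ≤ S.be b) (ht : S.TyOK)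
    (hc : S.Car d z) (hx : x ∈ S.Bs d) (hz : z < x) :
    (S.step d z).PA d ∧ (S.step d z).cp d = S.cp d ∧ x ∈ (S.step d z).Bs d :=
  ⟨⟨(pos_car he hle hc).2 (hz.trans_le hx.2), (step_ty ht hc).trans hc.pa.2⟩,
    if_neg (not_mv rfl), (car he hle hc).1.le.trans hz.le, hx.2.trans (car he hle hc).2.ge⟩

/-- The same on the other base. -/
theorem lemB' (he : ∀ d, S.e d = 1 ∨ S.e d = -1) (hle : ∀ b, S.al b ≤ S.be b) (ht : S.TyOK)
    (hc : S.Car d z) (hx : x ∈ S.Bs d) (hz : z < x) :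
    (S.step d z).PA (op d) ∧ (S.step d z).cp (op d) = S.cp (op d) ∧
      S.of d + S.sg d * x ∈ (S.step d z).Bs (op d) := by
  obtain ⟨p, -, m⟩ := lemB he hle ht hc hx hz
  have n : ¬ S.Mv d z d := not_mv rfl
  have n' : ¬ S.Mv d z (op d) := not_mv rfl
  refine ⟨⟨p.1, (step_ty ht hc).trans (hc.pa.op ht).2⟩, if_neg n', ?_⟩
  obtain ⟨t, t1, t2, rfl⟩ := exists_pos ((step_e n).symm ▸ he d) (dom he hle hc d.1).2.1 m
  rw [step_pos n, of_add (he d), ← step_pos n']
  exact pos_mem ((step_e n').symm ▸ he (op d)) t1 t2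

end StwP

open StwP Sys in
theorem stw : StwStmt := by
  intro G T J B _ _ _ Ln S d z hv hw hc
  have he := hv.core.sg
  have hle := hv.core.le
  have ht := hv.ty
  obtain ⟨Q, hQ⟩ := hw
  refine ⟨insert z (insert (S.of d + S.sg d * z) (Q ∪ Q.image fun y => S.of d + S.sg d * y)),
    fun ν p x hx hq => ?_⟩
  simp only [Finset.mem_insert, Finset.mem_union, Finset.mem_image, not_or, not_exists,
    not_and] at hq
  obtain ⟨q1, q2, q3, q4⟩ := hq
  have lemA : x ∈ S.Bs (op d) → ∃ μ, (μ = op d ∨ S.Mv d z μ) ∧ (S.step d z).PA μ ∧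
      (S.step d z).cp μ = S.cp (op d) ∧ x ∈ (S.step d z).Bs μ := by
    intro h
    obtain ⟨y, rfl⟩ := phi_surj he d x
    have hy := phi_mem he hle h
    rcases lt_trichotomy z y with l | l | l
    · exact ⟨_, Or.inl rfl, lemB' he hle ht hc hy l⟩
    · exact absurd (by rw [l]) q2
    · obtain ⟨μ, m1, m2, m3, m4⟩ := hQ d hc.pa y hy fun k => q4 y k rfl
      have m : S.Mv d z μ := by
        by_contra m
        linarith [right hc m2 m3 m m1, m4.1]
      exact ⟨μ, Or.inr m, pa_ne ht hc m.1 m2, if_pos m, (bs_mv he hle m).2 m4⟩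
  have cov : ∀ ν₁, S.PA ν₁ → x ∈ S.Bs ν₁ → ¬ S.Mv d z ν₁ → ν₁ ≠ d →
      (ν₁ ≠ op d ∧ S.cp (op d) = S.cp ν₁ ∧ x ∈ S.Bs (op d)) ∨ ∃ μ, μ ≠ ν₁ ∧ ¬ S.Mv d z μ ∧
        (S.step d z).PA μ ∧ (S.step d z).cp μ = S.cp ν₁ ∧ x ∈ (S.step d z).Bs μ := by
    intro ν₁ p₁ x₁ n₁ n₂
    obtain ⟨μ, m1, m2, m3, m4⟩ := hQ ν₁ p₁ x x₁ q3
    have k : S.cp ν₁ = S.cp d → x ∈ S.Bs d → ∃ μ, μ ≠ ν₁ ∧ ¬ S.Mv d z μ ∧
        (S.step d z).PA μ ∧ (S.step d z).cp μ = S.cp ν₁ ∧ x ∈ (S.step d z).Bs μ := by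
      intro c b
      obtain ⟨b1, b2, b3⟩ := lemB he hle ht hc b
        (lt_of_le_of_ne ((right hc p₁ c n₁ n₂).trans x₁.1) (Ne.symm q1))
      exact ⟨d, n₂.symm, not_mv rfl, b1, b2.trans c.symm, b3⟩
    by_cases m : S.Mv d z μ
    · exact Or.inr (k (m3.symm.trans m.2.1) (slid he hle hc m m4))
    by_cases hb : μ.1 = d.1
    · rcases eq_or_op hb with rfl | rfl
      · exact Or.inr (k m3.symm m4)
      · exact Or.inl ⟨m1.symm, m3, m4⟩
    · exact Or.inr ⟨μ, m1, m, pa_ne ht hc hb m2, (if_neg m).trans m3, (bs_same hb m).symm ▸ m4⟩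
  have p₀ := pa_of he hle ht hc p
  by_cases m : S.Mv d z ν
  · have c : (S.step d z).cp ν = S.cp (op d) := if_pos m
    rw [c]
    obtain ⟨y, rfl⟩ := phi_surj he d x
    have hy := slid he hle hc m ((bs_mv he hle m).1 hx)
    rcases (cov (op d) (hc.pa.op ht) (map_mem he (hle _) hy) (not_mv rfl) (op_ne d)) with k | k
    · exact absurd rfl k.1
    · obtain ⟨μ, -, k2, k3⟩ := k
      exact ⟨μ, fun e => k2 (e ▸ m), k3⟩
  have c : (S.step d z).cp ν = S.cp ν := if_neg m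
  rw [c]
  by_cases hd : ν = d
  · subst hd
    obtain ⟨μ, m1, m2, m3, m4⟩ := hc.wit.resolve_left ((pos_car he hle hc).1 p.1).ne
    have hμ : x ∈ S.Bs μ :=
      ⟨m4.le.trans ((car he hle hc).1.ge.trans hx.1), (hx.2.trans (car he hle hc).2.le).trans m3.le⟩
    have n : ¬ S.Mv ν z μ := fun k => k.2.2.2.ne m4
    by_cases hb : μ.1 = ν.1
    · rcases eq_or_op hb with rfl | rfl
      · exact absurd m3 (lt_irrefl _)
      · obtain ⟨κ, k1, k2, k3, k4⟩ := lemA hμ
        refine ⟨κ, ?_, k2, k3.trans m2, k4⟩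
        rintro rfl
        exact k1.elim (fun e => op_ne _ e.symm) m
    · exact ⟨μ, fun e => hb (congrArg _ e), pa_ne ht hc hb m1, (if_neg n).trans m2,
        (bs_same hb n).symm ▸ hμ⟩
  rcases cov ν p₀ (bs_out he hle hc m hx) m hd with ⟨k1, k2, k3⟩ | ⟨μ, k1, -, k3⟩
  · obtain ⟨κ, l1, l2, l3, l4⟩ := lemA k3
    refine ⟨κ, ?_, l2, l3.trans k2, l4⟩
    rintro rfl
    exact l1.elim k1 m
  · exact ⟨μ, k1, k3⟩

end Pool.Agent.MP_494aff_an.Hi

end MrgPart13

-- ======== part 14: formerly Pool.Agent.MP_494aff_an.hi.Subdiv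
section MrgPart14

/-! Row SUBDIV: subdivision of a band. -/

namespace Pool.Agent.MP_494aff_an.Hi

open Pool.Agent.MP_494aff_an.Se

open Classical

namespace SubdivP

open Sys

variable {G T J B : Type} {S : Sys G T J B} {b : B} {t : ℝ}

theorem dom (hle : ∀ b, S.al b ≤ S.be b) (h1 : S.al b ≤ t) (h2 : t ≤ S.be b) (o : Option B) :
    S.al (o.getD b) ≤ (S.subdiv b t).al o ∧ (S.subdiv b t).al o ≤ (S.subdiv b t).be o ∧
      (S.subdiv b t).be o ≤ S.be (o.getD b) := by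
  cases o with
  | none => exact ⟨h1, h2, le_rfl⟩
  | some b' =>
    by_cases h : b' = b
    · subst h
      simpa [subdiv] using ⟨h1, h2⟩
    · simpa [subdiv, h] using hle b'

theorem bs (he : ∀ d, S.e d = 1 ∨ S.e d = -1) (hle : ∀ b, S.al b ≤ S.be b) (h1 : S.al b ≤ t)
    (h2 : t ≤ S.be b) (d : Option B × Bool) :
    (S.subdiv b t).Bs d ⊆ S.Bs (d.1.getD b, d.2) :=
  bs_sub (he _) rfl rfl (dom hle h1 h2 d.1).1 (dom hle h1 h2 d.1).2.1 (dom hle h1 h2 d.1).2.2

theorem pos' (hle : ∀ b, S.al b ≤ S.be b) (h1 : S.al b ≤ t) (h2 : t ≤ S.be b) {o : Option B}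
    (h : (S.subdiv b t).Pos o) : S.Pos (o.getD b) :=
  lt_of_le_of_lt (dom hle h1 h2 o).1 (lt_of_lt_of_le h (dom hle h1 h2 o).2.2)

theorem halves (he : ∀ d, S.e d = 1 ∨ S.e d = -1) (hle : ∀ b, S.al b ≤ S.be b) (h1 : S.al b ≤ t)
    (h2 : t ≤ S.be b) (i : Bool) {x : ℝ} (k1 : (S.subdiv b t).lo (none, i) < x)
    (k2 : x < (S.subdiv b t).hi (none, i)) (k3 : (S.subdiv b t).lo (some b, i) < x)
    (k4 : x < (S.subdiv b t).hi (some b, i)) : False := by
  obtain ⟨s, rfl⟩ : ∃ s, S.pos (b, i) s = x := ⟨_, pos_par (he _) x⟩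
  have a1 := (pos_int_iff (S := S.subdiv b t) (d := (none, i)) (t := s) (he (b, i))
    (dom hle h1 h2 none).2.1).1 ⟨k1, k2⟩
  have a2 := (pos_int_iff (S := S.subdiv b t) (d := (some b, i)) (t := s) (he (b, i))
    (dom hle h1 h2 (some b)).2.1).1 ⟨k3, k4⟩
  have a3 : t < s := a1.1
  have a4 : s < t := by simpa [subdiv] using a2.2
  linarith

theorem ne_old (he : ∀ d, S.e d = 1 ∨ S.e d = -1) (hle : ∀ b, S.al b ≤ S.be b) (h1 : S.al b ≤ t)
    (h2 : t ≤ S.be b) {d d' : Option B × Bool} (n : d ≠ d') {x : ℝ}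
    (k1 : (S.subdiv b t).lo d < x) (k2 : x < (S.subdiv b t).hi d)
    (k3 : (S.subdiv b t).lo d' < x) (k4 : x < (S.subdiv b t).hi d') :
    (d.1.getD b, d.2) ≠ (d'.1.getD b, d'.2) := by
  obtain ⟨o, i⟩ := d
  obtain ⟨o', i'⟩ := d'
  intro e
  obtain ⟨e1, e2⟩ := Prod.mk.inj e
  obtain rfl : i = i' := e2
  cases o <;> cases o' <;> simp only [Option.getD_none, Option.getD_some] at e1
  · exact n rfl
  · subst e1
    exact halves he hle h1 h2 i k1 k2 k3 k4
  · subst e1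
    exact halves he hle h1 h2 i k3 k4 k1 k2
  · exact n (by rw [e1])

variable [Group G]

theorem ext (h : S.Ext) : (S.subdiv b t).Ext := by
  rintro u ⟨f, hf⟩
  have e1 := hf (none, false) t (Finset.mem_insert_self _ _) 1
  have e2 := hf (some b, false) t (by simp [subdiv]) 1
  have e3 : ∃ k, ∀ i, u (none, i) = u (some b, i) * k := by
    refine ⟨(u (some b, false))⁻¹ * u (none, false), fun i => ?_⟩
    cases i
    · group
    · change (u (none, false))⁻¹ * f (S.cp (b, false)) (S.pos (b, false) t) (S.ga (b, false) * 1) =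
        (u (none, true))⁻¹ * f (S.cp (b, true)) (S.pos (b, true) t) (S.ga (b, true) * 1) at e1
      change (u (some b, false))⁻¹ * f (S.cp (b, false)) (S.pos (b, false) t)
        (S.ga (b, false) * 1) = (u (some b, true))⁻¹ * f (S.cp (b, true)) (S.pos (b, true) t)
          (S.ga (b, true) * 1) at e2
      rw [inv_mul_eq_iff_eq_mul] at e1 e2
      rw [e1, ← mul_assoc, ← mul_assoc, mul_left_inj] at e2
      rw [← inv_mul_eq_iff_eq_mul, eq_inv_mul_iff_mul_eq, ← mul_assoc, ← e2]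
      group
  obtain ⟨k, hk⟩ := e3
  obtain ⟨Ψ, y, w, hu⟩ := h (fun d => u (some d.1, d.2)) ⟨f, by
    rintro ⟨b', i⟩ s hs g
    by_cases hb : b' = b
    · subst hb
      rcases le_total s t with l | l
      · exact hf (some b', i) s (by simp [subdiv, l, show s ∈ S.st b' from hs]) g
      · have := hf (none, i) s (Finset.mem_insert_of_mem (Finset.mem_filter.2 ⟨hs, l⟩)) g
        rw [op_mk, hk, hk, mul_inv_rev, mul_inv_rev, mul_assoc, mul_assoc, mul_right_inj] at this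
        exact this
    · exact hf (some b', i) s (by simpa [subdiv, hb] using hs) g⟩
  refine ⟨Ψ, y, fun o => o.elim (k⁻¹ * w b) w, ?_⟩
  rintro ⟨_ | b', i⟩
  · rw [hk, show u (some b, i) = _ from hu (b, i)]
    simp only [Option.elim, mul_inv_rev, inv_inv, mul_assoc]
    rfl
  · exact hu (b', i)

variable [MulAction G T]

theorem core (h : S.Core) (h1 : S.al b ≤ t) (h2 : t ≤ S.be b) : (S.subdiv b t).Core := by
  refine ⟨h.ne, fun o => (dom h.le h1 h2 o).2.1, fun d => h.sg _, ?_, fun d s k1 k2 =>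
    h.geo (d.1.getD b, d.2) s ((dom h.le h1 h2 d.1).1.trans k1)
      (k2.trans (dom h.le h1 h2 d.1).2.2), ext h.ext,
    fun X hX => h.conn X fun d g => hX (some d.1, d.2) g⟩
  rintro (_ | b') s hs
  · rcases Finset.mem_insert.1 hs with rfl | hs
    · exact ⟨le_rfl, h2⟩
    · exact ⟨(Finset.mem_filter.1 hs).2, (h.stm b s (Finset.mem_filter.1 hs).1).2⟩
  · by_cases hb : b' = b
    · subst hb
      simp only [subdiv, Option.elim, if_true, Finset.mem_insert, Finset.mem_filter] at hs ⊢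
      rcases hs with rfl | hs
      · exact ⟨h1, le_rfl⟩
      · exact ⟨(h.stm _ s hs.1).1, hs.2⟩
    · simp only [subdiv, Option.elim, hb, if_false] at hs ⊢
      exact h.stm _ s hs

end SubdivP

open SubdivP Sys in
theorem subdiv : SubdivStmt := by
  intro G T J B _ _ S b t h1 h2
  refine ⟨fun h => core h h1 h2, fun Ln h => ?_⟩
  have he := h.core.sg
  have hle := h.core.le
  have hb := bs he hle h1 h2
  refine ⟨core h.core h1 h2, fun d p => h.ty (d.1.getD b, d.2) (pos' hle h1 h2 p), ?_, ?_,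
    Sub.dyn (π := id) (Sub.of_piece fun o i p => ⟨o.getD b, ⟨pos' hle h1 h2 p.1, p.2⟩, hb (o, i),
      fun _ => ⟨rfl, rfl, rfl, rfl⟩⟩) h.dyn⟩
  · obtain ⟨A, a1, a2⟩ := h.ab
    exact ⟨A, a1, fun d k x hx => a2 (d.1.getD b, d.2) k x (hb d hx)⟩
  · intro d₁ d₂ d₃ x n1 n2 n3 c1 c2 q l1 l2 l3 l4 l5 l6
    have k1 := lo_le_of_sub (hb d₁)
    have k2 := lo_le_of_sub (hb d₂)
    have k3 := lo_le_of_sub (hb d₃)
    exact h.qd _ _ _ x (ne_old he hle h1 h2 n1 l1 l2 l3 l4) (ne_old he hle h1 h2 n2 l1 l2 l5 l6)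
      (ne_old he hle h1 h2 n3 l3 l4 l5 l6) c1 c2 q (k1.1.trans_lt l1) (l2.trans_le k1.2)
      (k2.1.trans_lt l3) (l4.trans_le k2.2) (k3.1.trans_lt l5) (l6.trans_le k3.2)

end Pool.Agent.MP_494aff_an.Hi

end MrgPart14

-- ======== part 15: formerly Pool.Agent.MP_494aff_an.hi.Top
section MrgPart15

/-! The machine from its steps. -/

namespace Pool.Agent.MP_494aff_an.Hi

open Pool.Agent.MP_494aff_an.Se Pool.Agent.MP_494aff_an.Fr

open Classical

theorem mach_of (h1 : InitStmt) (h2 : FamStmt) (h3 : Ref1Stmt) (h4 : Ref2Stmt) (h5 : FrzStmt)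
    (h6 : Mach0Stmt) (h7 : Qp1Stmt) (h8 : Qp2Stmt) (h9 : SkelStmt) : MachStmt := by
  intro G T Ω _ _ _ _ Ln π ht hd he hc
  obtain ⟨J, B, _, _, S, l, r, c, iso⟩ := h1 G T Ln ht hd
  obtain ⟨K, hK⟩ := h2 G T J B Ln S l r ht c iso
  obtain ⟨B₁, _, S₁, ρ₁, c₁, r₁, q₁⟩ :=
    h3 G T J B S (K.image (fun p => p.2.1) ∪ K.image fun p => p.2.2) c
  obtain ⟨J₂, B₂, _, _, S₂, π₂, ρ₂, c₂, r₂, q₂⟩ := h4 G T J B₁ S₁ _ c₁ q₁
  obtain ⟨ty, v₃⟩ := h5 G T J B J₂ B₂ Ln S l r K _ S₂ _ _ ht c iso hK (fun p hp =>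
    ⟨Finset.mem_union_left _ (Finset.mem_image_of_mem (fun p : J × ℝ × ℝ => p.2.1) hp),
      Finset.mem_union_right _ (Finset.mem_image_of_mem (fun p : J × ℝ × ℝ => p.2.2) hp)⟩) c₂
    (r₁.trans r₂) q₂
  obtain ⟨J₄, B₄, _, _, S₄, v₄, n₄⟩ := h6 G T J₂ B₂ Ln _ v₃
  obtain ⟨B₅, _, S₅, p₅⟩ := h7 G T J₄ B₄ Ln S₄ v₄ n₄
  obtain ⟨J₆, B₆, f₁, f₂, S₆, p₆⟩ := h8 G T J₄ B₅ Ln S₅ p₅
  obtain ⟨N, St, f₃, f₄, K', k⟩ := h9 G T Ω J₆ B₆ Ln π S₆ he hc p₆
  exact ⟨J₆, B₆, N, St, f₁, f₂, f₃, f₄, K', k⟩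

end Pool.Agent.MP_494aff_an.Hi

end MrgPart15

-- marker of a merged file
example : 731051 + 582257 = 731051 + 582257 := rfl
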